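import Pool.Agent.H15.G.R_seed8.TH603.Cut.FlatE
import Pool.Agent.H15.G.R_seed8.TH603.Sur.Lim

/-! From the weighted planes to the right triangles reached by moves, without rounding. -/

namespace Pool.Agent.TH603.Cut

open Finset Pool.Agent.TH176.Nag Pool.Agent.TH603.Sur Pool.Agent.TH181.NagM

section
variable {ι : Type} [Fintype ι] {w : ι → ℕ}

/-- the staircase limit for one size, independence -/
theorem Sur_lim1 {M : ℕ} (hM : 1 ≤ M) {ω : ℝ} (hω : 2 ≤ ω) (hω2 : ω ^ 2 + 1 = (M + 2) * ω) {A : ℤ}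
    {F : ℝ} (hF0 : 0 < F) (hF : √(M : ℝ) * F < A + M + 1)
    (h : ∀ α : ℝ, Sur w (RegO α (α + F * √(1 / (M : ℝ) + (ω ^ 2 - 1) / M)) (1 / M) ((ω ^ 2 - 1) / M))) :
    Sur w (Op A M) := by
  have hM' : (0 : ℝ) < M := by exact_mod_cast hM
  have hs : 0 < √(M : ℝ) := Real.sqrt_pos.2 hM'
  have hs2 : √(M : ℝ) ^ 2 = M := Real.sq_sqrt hM'.le
  obtain ⟨E', hE'⟩ : ∃ E' : ℤ, E' = A + M + 1 := ⟨_, rfl⟩
  have hlt : √(M : ℝ) * F < E' := by rw [hE']; push_cast; linarith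
  have hN : 3 ≤ M + 2 := by omega
  have hNR : (((M + 2 : ℕ) : ℝ)) - 2 = M := by push_cast; ring
  have hpos : (0 : ℝ) < E' := by
    have : 0 < √(M : ℝ) * F := mul_pos hs hF0
    linarith
  obtain ⟨t, ht, h1, h2⟩ := gs_ratio (N := M + 2) hN hω (by push_cast; linarith) hlt hpos
  obtain ⟨s, rfl⟩ : ∃ s, t = s + 2 := ⟨t - 2, by omega⟩
  have h3 := h (-(E' : ℝ) / M)
  have h4 : √(1 / (M : ℝ) + (ω ^ 2 - 1) / M) = ω / √(M : ℝ) := by
    have : (1 / (M : ℝ) + (ω ^ 2 - 1) / M) = ω ^ 2 / M := by field_simp; ring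
    rw [this, Real.sqrt_div (sq_nonneg _), Real.sqrt_sq (by linarith)]
  rw [h4] at h3
  have h5 : F * (ω / √(M : ℝ)) = (ω * (√(M : ℝ) * F)) / M := by
    rw [eq_div_iff hM'.ne']
    have : (M : ℝ) = √(M : ℝ) * √(M : ℝ) := by rw [← sq]; exact hs2.symm
    field_simp
    rw [hs2]
  rw [h5] at h3
  have h6 : Sur w (Q3z (M + 2) (s + 2) (E' - (M + 2 : ℕ))) := by
    refine h3.shift (-1) 1 ?_
    intro m' hm'
    have e1 : m'.1 - -1 = m'.1 + 1 := by ring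
    rw [e1]
    apply RegO_sub hN (ω := ω) (B := ω * (√(M : ℝ) * F)) (by linarith) h1 h2
    rw [hNR]
    exact hm'
  have h7 := Sur_WPz hN s _ h6
  refine h7.mono ?_
  rintro ⟨a, b⟩ ⟨ha, hb, hab⟩
  simp only at ha hb hab
  refine ⟨ha, hb, ?_⟩
  simp only
  have h8 : a + M * b + 1 ≤ A := by
    rw [hE'] at hab
    push_cast at hab
    linarith
  have h9 : (((a + M * b + 1 : ℤ)) : ℝ) ≤ A := by exact_mod_cast h8
  push_cast at h9
  linarith

/-- from a weighted plane to a right triangle reached by moves, independence -/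
theorem shape_S {M : ℕ} (hM : 1 ≤ M) {ω : ℝ} (hω : 2 ≤ ω) (hω2 : ω ^ 2 + 1 = (M + 2) * ω)
    {ν : ℝ} (hν : 0 < ν) (hMv : Mv (1 / M) ((ω ^ 2 - 1) / M) 0 ν) {A : ℤ} {Z : ℝ}
    (hZ : (Z + ν + 1) / √ν < (A + M + 1) / √(M : ℝ)) (h : Sur w (Op Z ν)) : Sur w (Op A M) := by
  have hM' : (0 : ℝ) < M := by exact_mod_cast hM
  have hs : 0 < √(M : ℝ) := Real.sqrt_pos.2 hM'
  have hsν : 0 < √ν := Real.sqrt_pos.2 hν
  rcases le_or_gt Z 0 with hZ0 | hZ0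
  · refine h.mono ?_
    rintro ⟨a, b⟩ ⟨h1, h2, h3⟩
    exfalso
    simp only at h1 h2 h3
    have h1' : (0 : ℝ) ≤ a := by exact_mod_cast h1
    have h2' : (0 : ℝ) ≤ b := by exact_mod_cast h2
    have := mul_nonneg hν.le h2'
    linarith
  obtain ⟨c, hc⟩ : ∃ c : ℝ, c = (Z + ν + 1) / √ν := ⟨_, rfl⟩
  have hc0 : 0 < c := by rw [hc]; positivity
  have hSP : SP w c 0 ν := by
    refine ⟨by linarith, fun E hE α => ?_⟩
    rw [zero_add]
    have hE' : Z + ν + 1 < E * √ν := by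
      rw [hc, div_lt_iff₀ hsν] at hE
      exact hE
    refine h.shift (-(⌊α⌋ + 1)) (-1) ?_
    rintro ⟨a, b⟩ ⟨h1, h2, h3⟩
    simp only at h1 h2 h3
    have h4 := Int.floor_le α
    have h5 := Int.lt_floor_add_one α
    have h1' : (0 : ℝ) ≤ a := by exact_mod_cast h1
    refine ⟨by simp only; omega, ?_, ?_⟩
    · simp only; push_cast; linarith
    · simp only; push_cast; linarith
  have h2 : SP w c (1 / M) ((ω ^ 2 - 1) / M) := hMv.closed (SP_closed hc0.le) hSP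
  rw [← hc] at hZ
  obtain ⟨F, hF1, hF2⟩ := exists_between hZ
  refine Sur_lim1 hM hω hω2 (F := F) (by linarith) ?_ (fun α => h2.2 F hF1 α)
  rw [lt_div_iff₀ hs] at hF2
  linarith

end

section
variable {ι : Type} {w : ι → ℕ}

theorem Q3z_sub_Reg {N : ℕ} (hN : 3 ≤ N) {ω : ℝ} {e t : ℕ} {E : ℝ} (hω : 0 < ω)
    (h1 : ((gs N (t + 1) : ℤ) : ℝ) ≤ ω * (gs N t : ℤ))
    (h2 : ω * e * (gs N t : ℤ) ≤ E * (gs N (t + 1) : ℤ)) :
    Q3z N t e ⊆ Reg (-(e : ℝ) / (N - 2)) (-(e : ℝ) / (N - 2) + E * ω / (N - 2)) (1 / (N - 2))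
      ((ω ^ 2 - 1) / (N - 2)) := by
  rintro ⟨a, b⟩ ⟨hb, hab, hc⟩
  simp only at hb hab hc
  have hN' : (3 : ℤ) ≤ N := by exact_mod_cast hN
  have hg := gs_pos hN' t
  have hg' := gs_pos hN' (t + 1)
  have hM : (0 : ℝ) < (N : ℝ) - 2 := by
    have : (3 : ℝ) ≤ N := by exact_mod_cast hN
    linarith
  set g : ℤ := gs N t
  set g' : ℤ := gs N (t + 1)
  have hgR : (0 : ℝ) < g := by exact_mod_cast hg
  have hgR' : (0 : ℝ) < g' := by exact_mod_cast hg'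
  have habR : (b : ℝ) ≤ (N - 2) * a + e := by exact_mod_cast hab
  have hcR : (((N : ℝ) - 2) * a + e) * g ^ 2 + b * (g' ^ 2 - g ^ 2) ≤ e * (g * g') := by
    exact_mod_cast hc
  obtain ⟨X, hX⟩ : ∃ X : ℝ, X = ((N : ℝ) - 2) * a + e := ⟨_, rfl⟩
  rw [← hX] at habR hcR
  refine ⟨hb, ?_, ?_⟩
  · simp only
    have e1 : -(e : ℝ) / (N - 2) + 1 / (N - 2) * b = (b - e) / (N - 2) := by ring
    rw [e1, div_le_iff₀ hM]
    linarith
  · simp only
    have h3 : 0 ≤ ω ^ 2 * g ^ 2 - g' ^ 2 := by nlinarith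
    have h4 : g' ^ 2 * (X + (ω ^ 2 - 1) * b) ≤ ω ^ 2 * (e * (g * g')) := by
      have e1 : g' ^ 2 * (X + (ω ^ 2 - 1) * b) =
          ω ^ 2 * (X * g ^ 2 + b * (g' ^ 2 - g ^ 2)) - (ω ^ 2 * g ^ 2 - g' ^ 2) * (X - b) := by ring
      rw [e1]
      have h5 : 0 ≤ (ω ^ 2 * g ^ 2 - g' ^ 2) * (X - b) := mul_nonneg h3 (by linarith)
      have h6 : ω ^ 2 * (X * g ^ 2 + b * (g' ^ 2 - g ^ 2)) ≤ ω ^ 2 * (e * (g * g')) :=
        mul_le_mul_of_nonneg_left hcR (by positivity)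
      linarith
    have h7 : ω ^ 2 * (e * (g * g')) ≤ g' ^ 2 * (E * ω) := by
      have h8 : (ω * g') * (ω * e * g) ≤ (ω * g') * (E * g') :=
        mul_le_mul_of_nonneg_left h2 (by positivity)
      linarith
    have h9 := le_of_mul_le_mul_left (h4.trans h7) (by positivity)
    have e2 : -(e : ℝ) / (N - 2) + E * ω / (N - 2) - (ω ^ 2 - 1) / (N - 2) * b =
        (E * ω - e - (ω ^ 2 - 1) * b) / (N - 2) := by ring
    rw [e2, le_div_iff₀ hM]
    rw [hX] at h9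
    linarith

/-- the staircase limit for one size, emptiness -/
theorem Emp_lim1 {M : ℕ} (hM : 1 ≤ M) {ω : ℝ} (hω : 2 ≤ ω) (hω2 : ω ^ 2 + 1 = (M + 2) * ω) {e : ℕ}
    {F : ℝ} (hF : (e : ℝ) < √(M : ℝ) * F)
    (h : ∀ α : ℝ, Emp w (Reg α (α + F * √(1 / (M : ℝ) + (ω ^ 2 - 1) / M)) (1 / M) ((ω ^ 2 - 1) / M))) :
    Emp w (WPz (M + 2) e) := by
  have hM' : (0 : ℝ) < M := by exact_mod_cast hM
  have hs : 0 < √(M : ℝ) := Real.sqrt_pos.2 hM'
  have hs2 : √(M : ℝ) ^ 2 = M := Real.sq_sqrt hM'.le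
  have hN : 3 ≤ M + 2 := by omega
  have hNR : (((M + 2 : ℕ) : ℝ)) - 2 = M := by push_cast; ring
  have hpos : (0 : ℝ) < √(M : ℝ) * F := lt_of_le_of_lt (Nat.cast_nonneg e) hF
  obtain ⟨t, ht, h1, h2⟩ := gs_ratio (N := M + 2) hN hω (by push_cast; linarith) hF hpos
  obtain ⟨s, rfl⟩ : ∃ s, t = s + 2 := ⟨t - 2, by omega⟩
  have h3 := h (-(e : ℝ) / M)
  have h4 : √(1 / (M : ℝ) + (ω ^ 2 - 1) / M) = ω / √(M : ℝ) := by
    have : (1 / (M : ℝ) + (ω ^ 2 - 1) / M) = ω ^ 2 / M := by field_simp; ring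
    rw [this, Real.sqrt_div (sq_nonneg _), Real.sqrt_sq (by linarith)]
  rw [h4] at h3
  have h5 : F * (ω / √(M : ℝ)) = √(M : ℝ) * F * ω / M := by
    rw [eq_div_iff hM'.ne']
    have : (M : ℝ) = √(M : ℝ) * √(M : ℝ) := by rw [← sq]; exact hs2.symm
    field_simp
    rw [hs2]
  rw [h5] at h3
  apply Emp_Q3z hN s e
  have h6 := Q3z_sub_Reg hN (ω := ω) (by linarith) h1 h2
  rw [hNR] at h6
  exact h3.mono h6

/-- emptiness for all triangles of shape `(μ, ν)` of twice the area less than `c ^ 2` -/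
def EP (w : ι → ℕ) (c : ℝ) (μ ν : ℝ) : Prop :=
  0 < μ + ν ∧ ∀ E : ℝ, 0 < E → E < c → ∀ α : ℝ, Emp w (Reg α (α + E * √(μ + ν)) μ ν)

theorem Reg_WPz {M : ℕ} {α : ℝ} {E : ℝ} {e : ℕ} (he : E * √(M : ℝ) < e + 1)
    (h : Emp w (WPz (M + 2) e)) : Emp w (Reg α (α + E * √(M : ℝ)) 0 M) := by
  refine h.comap 1 0 0 1 (-⌈α⌉) 0 (by norm_num) ?_
  rintro ⟨a, b⟩ ⟨h1, h2, h3⟩
  simp only at h1 h2 h3
  have h4 : ⌈α⌉ ≤ a := Int.ceil_le.2 (by linarith)
  refine ⟨by simp only; omega, by simp only; omega, ?_⟩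
  simp only
  have h5 := Int.le_ceil α
  have h6 : ((a - ⌈α⌉ + M * b : ℤ) : ℝ) < ((e + 1 : ℤ) : ℝ) := by
    push_cast
    linarith
  have h7 : a - ⌈α⌉ + M * b < e + 1 := by exact_mod_cast h6
  push_cast
  linarith

theorem EP_closed {c : ℝ} : Closed (EP w c) where
  mirror := by
    rintro μ ν ⟨h0, h⟩
    refine ⟨by linarith, fun E hE0 hE α => ?_⟩
    apply Emp_mirror
    have h1 := h E hE0 hE (-(α + E * √(μ + ν)))
    rw [add_comm ν μ] at h1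
    have e : -(α + E * √(μ + ν)) + E * √(μ + ν) = -α := by ring
    rwa [e] at h1
  shear := by
    rintro μ ν k ⟨h0, h⟩
    have e : μ + k + (ν - k) = μ + ν := by ring
    rw [e] at h0 h
    refine ⟨h0, fun E hE0 hE α => ?_⟩
    have h1 := h E hE0 hE α
    refine h1.comap 1 k 0 1 0 0 (by norm_num) ?_
    rintro ⟨a, b⟩ ⟨hb, hl, hr⟩
    simp only at hb hl hr
    refine ⟨by simpa using hb, ?_, ?_⟩
    · simp only; push_cast; linarith
    · simp only; push_cast; linarith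
  stepA := by
    rintro μ ν u v hc' hu h1 h2 hn ⟨-, h⟩
    refine ⟨hn, fun E hE0 hE α => ?_⟩
    obtain ⟨p, q, hpq⟩ := hc'
    have h3 := h E hE0 hE (u * α)
    have e1 : u * (u * μ + v) + (v - u * ν) * (u * μ + v) / (μ + ν) = (u * μ + v) ^ 2 / (μ + ν) := by
      field_simp
      ring
    have hs : 0 < √(μ + ν) := Real.sqrt_pos.2 hn
    have hs2 : √(μ + ν) ^ 2 = μ + ν := Real.sq_sqrt hn.le
    have e2 : √(u * (u * μ + v) + (v - u * ν) * (u * μ + v) / (μ + ν)) = (u * μ + v) / √(μ + ν) := by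
      rw [e1, Real.sqrt_div (sq_nonneg _), Real.sqrt_sq h1]
    rw [e2] at h3
    refine Emp_regA u v p q (by linarith) hu (by linarith) h2 hn rfl ?_ rfl ?_ h3
    · have e3 : E * ((u * μ + v) / √(μ + ν)) * (μ + ν) = E * (u * μ + v) * √(μ + ν) := by
        have e4 : E * ((u * μ + v) / √(μ + ν)) * (μ + ν) =
            E * ((u * μ + v) / √(μ + ν)) * √(μ + ν) ^ 2 := by rw [hs2]
        rw [e4]
        field_simp
      linear_combination e3
    · rw [div_mul_cancel₀ _ hn.ne']; ring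
  stepC := by
    rintro μ ν u v hc' hu h1 h2 ⟨h0, h⟩
    have e1 : u * (u * μ + v) + u * (u * ν - v) = u ^ 2 * (μ + ν) := by ring
    rw [e1] at h0
    have hn : 0 < μ + ν := by
      by_contra hcon
      have : (u : ℝ) ^ 2 * (μ + ν) ≤ 0 := mul_nonpos_of_nonneg_of_nonpos (sq_nonneg _) (not_lt.1 hcon)
      linarith
    refine ⟨hn, fun E hE0 hE α => ?_⟩
    obtain ⟨p, q, hpq⟩ := hc'
    have h3 := h E hE0 hE (u * α)
    have hu' : (0 : ℝ) ≤ u := by exact_mod_cast hu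
    have e2 : √(u * (u * μ + v) + u * (u * ν - v)) = u * √(μ + ν) := by
      rw [e1, Real.sqrt_mul (sq_nonneg _), Real.sqrt_sq hu']
    rw [e2] at h3
    refine Emp_regC u v p q (by linarith) hu (by linarith) h2 rfl ?_ rfl rfl h3
    ring
  lim := by
    rintro M hM ω hω hω2 ⟨h0, h⟩
    have hM' : (0 : ℝ) < M := by exact_mod_cast hM
    have hs : 0 < √(M : ℝ) := Real.sqrt_pos.2 hM'
    refine ⟨by linarith, fun E hE0 hE α => ?_⟩
    rw [zero_add]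
    obtain ⟨F, hF1, hF2⟩ := exists_between hE
    have h1 : 0 ≤ E * √(M : ℝ) := by positivity
    refine Reg_WPz (e := ⌊E * √(M : ℝ)⌋₊) (Nat.lt_floor_add_one _) ?_
    refine Emp_lim1 hM hω hω2 (F := F) ?_ (fun α' => h F (by linarith) hF2 α')
    have h2 := Nat.floor_le h1
    have h3 : E * √(M : ℝ) < F * √(M : ℝ) := mul_lt_mul_of_pos_right hF1 hs
    linarith

/-- from a weighted plane to a right triangle reached by moves, emptiness -/
theorem shape_E {M : ℕ} (hM : 1 ≤ M) {ω : ℝ} (hω : 2 ≤ ω) (hω2 : ω ^ 2 + 1 = (M + 2) * ω)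
    {ν : ℝ} (hν : 0 < ν) (hMv : Mv (1 / M) ((ω ^ 2 - 1) / M) 0 ν) {A : ℤ} {Z : ℝ}
    (hZ : (A - 1) / √(M : ℝ) < (Z - 1) / √ν) (h : Emp w (Cl Z ν)) : Emp w (Cl A M) := by
  have hM' : (0 : ℝ) < M := by exact_mod_cast hM
  have hs : 0 < √(M : ℝ) := Real.sqrt_pos.2 hM'
  have hsν : 0 < √ν := Real.sqrt_pos.2 hν
  rcases lt_or_ge A 1 with hA | hA
  · refine Emp_none ?_
    rintro ⟨a, b⟩ ⟨h1, h2, h3⟩
    simp only at h1 h2 h3
    have h1' : (0 : ℝ) ≤ a := by exact_mod_cast h1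
    have h2' : (0 : ℝ) ≤ b := by exact_mod_cast h2
    have hA' : (A : ℝ) + 1 ≤ 1 := by exact_mod_cast (by omega : A + 1 ≤ 1)
    have := mul_nonneg hM'.le h2'
    linarith
  obtain ⟨e, he⟩ := Int.eq_ofNat_of_zero_le (show 0 ≤ A - 1 by linarith)
  have heR : (e : ℝ) = A - 1 := by
    have : ((A - 1 : ℤ) : ℝ) = ((e : ℤ) : ℝ) := by rw [he]
    push_cast at this
    exact this.symm
  obtain ⟨c, hc⟩ : ∃ c : ℝ, c = (Z - 1) / √ν := ⟨_, rfl⟩
  rw [← hc] at hZ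
  have hEP : EP w c 0 ν := by
    refine ⟨by linarith, fun E hE0 hE α => ?_⟩
    rw [zero_add]
    have hE' : E * √ν < Z - 1 := by
      rw [hc, lt_div_iff₀ hsν] at hE
      exact hE
    refine h.comap 1 0 0 1 (-⌈α⌉) 0 (by norm_num) ?_
    rintro ⟨a, b⟩ ⟨h1, h2, h3⟩
    simp only at h1 h2 h3
    have h4 : ⌈α⌉ ≤ a := Int.ceil_le.2 (by linarith)
    have h5 := Int.le_ceil α
    refine ⟨by simp only; omega, by simp only; omega, ?_⟩
    simp only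
    push_cast
    linarith
  have h2 : EP w c (1 / M) ((ω ^ 2 - 1) / M) := hMv.closed EP_closed hEP
  obtain ⟨F, hF1, hF2⟩ := exists_between hZ
  have hF0 : 0 < F := by
    refine lt_of_le_of_lt ?_ hF1
    rw [← heR]; positivity
  have h3 := Emp_lim1 hM hω hω2 (e := e) (F := F) (by
    rw [div_lt_iff₀ hs] at hF1
    rw [heR]; linarith) (fun α' => h2.2 F hF0 hF2 α')
  refine h3.mono ?_
  rintro ⟨a, b⟩ ⟨h4, h5, h6⟩
  simp only at h4 h5 h6
  refine ⟨h4, h5, ?_⟩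
  simp only
  have h7 : (((a + M * b : ℤ)) : ℝ) ≤ ((A - 1 : ℤ) : ℝ) := by push_cast; linarith
  have h8 : a + M * b ≤ A - 1 := by exact_mod_cast h7
  rw [← he]
  push_cast
  linarith

end

end Pool.Agent.TH603.Cut
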