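import Mathlib

/-! Sums of the positive parts of arithmetic progressions and of slabs. -/

namespace Pool.Agent.TH603.Cut

open Finset

theorem up_one {ν : ℝ} (hν : 0 < ν) (a : ℝ) :
    2 * ν * max a 0 ≤ (max (a + ν / 2) 0) ^ 2 - (max (a - ν / 2) 0) ^ 2 := by
  rcases le_total 0 (a - ν / 2) with h | h
  · rw [max_eq_left h, max_eq_left (by linarith), max_eq_left (by linarith)]
    linarith [show (a + ν / 2) ^ 2 - (a - ν / 2) ^ 2 = 2 * ν * a by ring]
  · rw [max_eq_right h]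
    rcases le_total 0 a with h2 | h2
    · rw [max_eq_left h2, max_eq_left (by linarith)]
      nlinarith [sq_nonneg (a - ν / 2)]
    · rw [max_eq_right h2]
      have : 0 ≤ (max (a + ν / 2) 0) ^ 2 := sq_nonneg _
      linarith

theorem low_one {ν : ℝ} (hν : 0 < ν) (a : ℝ) :
    max a 0 * (max a 0 + ν) - max (a - ν) 0 * (max (a - ν) 0 + ν) ≤ 2 * ν * max a 0 := by
  rcases le_total 0 (a - ν) with h | h
  · rw [max_eq_left h, max_eq_left (by linarith)]
    linarith [show a * (a + ν) - (a - ν) * (a - ν + ν) = 2 * ν * a by ring]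
  · rw [max_eq_right h]
    rcases le_total 0 a with h2 | h2
    · rw [max_eq_left h2]
      nlinarith
    · rw [max_eq_right h2]
      linarith

theorem sum_up {ν : ℝ} (hν : 0 < ν) (Z : ℝ) (H : ℕ) :
    2 * ν * ∑ i ∈ range H, max (Z - ν * i) 0 ≤ (max (Z + ν / 2) 0) ^ 2 := by
  have h : 2 * ν * ∑ i ∈ range H, max (Z - ν * i) 0 ≤
      (max (Z + ν / 2) 0) ^ 2 - (max (Z - ν * H + ν / 2) 0) ^ 2 := by
    induction H with
    | zero => simp
    | succ H ih =>
      rw [sum_range_succ, mul_add]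
      have h1 := up_one hν (Z - ν * H)
      have e : Z - ν * (H + 1 : ℕ) + ν / 2 = Z - ν * H - ν / 2 := by push_cast; ring
      rw [e]
      linarith
  have : 0 ≤ (max (Z - ν * H + ν / 2) 0) ^ 2 := sq_nonneg _
  linarith

theorem sum_low {ν : ℝ} (hν : 0 < ν) (Z : ℝ) (H : ℕ) (hH : Z ≤ ν * H) :
    max Z 0 * (max Z 0 + ν) ≤ 2 * ν * ∑ i ∈ range H, max (Z - ν * i) 0 := by
  have h : ∀ H : ℕ, max Z 0 * (max Z 0 + ν) - max (Z - ν * H) 0 * (max (Z - ν * H) 0 + ν) ≤
      2 * ν * ∑ i ∈ range H, max (Z - ν * i) 0 := by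
    intro H
    induction H with
    | zero => simp
    | succ H ih =>
      rw [sum_range_succ, mul_add]
      have h1 := low_one hν (Z - ν * H)
      have e : Z - ν * (H + 1 : ℕ) = Z - ν * H - ν := by push_cast; ring
      rw [e]
      linarith
  have h1 := h H
  rw [max_eq_right (by linarith : Z - ν * H ≤ 0)] at h1
  linarith

/-- the slab sum -/
noncomputable def slab (ν : ℝ) (k y H : ℕ) (Z : ℝ) : ℝ :=
  ∑ i ∈ range H, if i < k then max (Z - ν * i) 0 else min (y : ℝ) (max (Z - ν * i) 0)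

theorem min_eq_sub {y a : ℝ} (hy : 0 ≤ y) : min y (max a 0) = max a 0 - max (a - y) 0 := by
  rcases le_total a y with h | h
  · rw [max_eq_right (by linarith : a - y ≤ 0), sub_zero, min_eq_right]
    exact max_le h hy
  · rw [max_eq_left (by linarith : 0 ≤ a - y), max_eq_left (by linarith : 0 ≤ a), min_eq_left h]
    ring

theorem slab_eq {ν : ℝ} {k y H : ℕ} (hk : k ≤ H) (Z : ℝ) :
    slab ν k y H Z = ∑ i ∈ range H, max (Z - ν * i) 0 -
      ∑ i ∈ range (H - k), max (Z - (ν * k + y) - ν * i) 0 := by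
  obtain ⟨e, rfl⟩ := Nat.exists_eq_add_of_le hk
  unfold slab
  rw [Nat.add_sub_cancel_left, sum_range_add, sum_range_add (fun i : ℕ => max (Z - ν * i) 0)]
  have h1 : ∑ x ∈ range k, (if x < k then max (Z - ν * x) 0 else min (y : ℝ) (max (Z - ν * x) 0)) =
      ∑ x ∈ range k, max (Z - ν * x) 0 :=
    sum_congr rfl fun x hx => by rw [if_pos (mem_range.1 hx)]
  rw [h1]
  have h2 : ∑ x ∈ range e, (if k + x < k then max (Z - ν * ((k + x : ℕ) : ℝ)) 0 else
      min (y : ℝ) (max (Z - ν * ((k + x : ℕ) : ℝ)) 0)) =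
      ∑ x ∈ range e, (max (Z - ν * ((k + x : ℕ) : ℝ)) 0 - max (Z - (ν * k + y) - ν * x) 0) := by
    refine sum_congr rfl fun x _ => ?_
    rw [if_neg (by omega), min_eq_sub (Nat.cast_nonneg y)]
    have : Z - ν * ((k + x : ℕ) : ℝ) - y = Z - (ν * k + y) - ν * x := by push_cast; ring
    rw [this]
  rw [h2, sum_sub_distrib]
  ring

/-- lower bound for a slab -/
theorem slab_low {ν : ℝ} (hν : 0 < ν) {k y H : ℕ} (hk : k ≤ H) {Z : ℝ} (hZ : 0 ≤ Z)
    (hH : Z ≤ ν * H) : 2 * (ν * k + y) * (Z + ν / 2) - (ν * k + y) ^ 2 - ν ^ 2 / 4 ≤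
      2 * ν * slab ν k y H Z := by
  rw [slab_eq hk, mul_sub]
  have h1 := sum_low hν Z H hH
  have h2 := sum_up hν (Z - (ν * k + y)) (H - k)
  rw [max_eq_left hZ] at h1
  have h3 : (max (Z - (ν * k + y) + ν / 2) 0) ^ 2 ≤ (Z - (ν * k + y) + ν / 2) ^ 2 := by
    rcases le_total 0 (Z - (ν * k + y) + ν / 2) with h | h
    · rw [max_eq_left h]
    · rw [max_eq_right h]
      have := sq_nonneg (Z - (ν * k + y) + ν / 2)
      linarith
  nlinarith

/-- upper bound for a slab -/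
theorem slab_up {ν : ℝ} (hν : 0 < ν) {k y H : ℕ} (hk : k ≤ H) {Z : ℝ} (hZ : ν * k + y ≤ Z)
    (hH : Z - (ν * k + y) ≤ ν * (H - k : ℕ)) : 2 * ν * slab ν k y H Z ≤
      2 * (ν * k + y) * (Z + ν / 2) - (ν * k + y) ^ 2 + ν ^ 2 / 4 := by
  rw [slab_eq hk, mul_sub]
  have h1 := sum_low hν (Z - (ν * k + y)) (H - k) hH
  have h2 := sum_up hν Z H
  rw [max_eq_left (by linarith)] at h1
  have hk0 : 0 ≤ ν * k + y := by positivity
  rw [max_eq_left (by linarith : 0 ≤ Z + ν / 2)] at h2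
  nlinarith

/-- upper bound for the top slab -/
theorem slab_top {ν : ℝ} (hν : 0 < ν) {k y H : ℕ} (hk : k ≤ H) {Z : ℝ} (hZ : 0 ≤ Z) :
    2 * ν * slab ν k y H Z ≤ (Z + ν / 2) ^ 2 := by
  rw [slab_eq hk, mul_sub]
  have h2 := sum_up hν Z H
  rw [max_eq_left (by linarith : 0 ≤ Z + ν / 2)] at h2
  have h3 : 0 ≤ ∑ i ∈ range (H - k), max (Z - (ν * k + y) - ν * i) 0 :=
    sum_nonneg fun i _ => le_max_right _ _
  have := mul_nonneg (mul_nonneg zero_le_two hν.le) h3
  linarith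

theorem slab_zero {ν : ℝ} (hν : 0 < ν) {k y H : ℕ} {Z : ℝ} (hZ : Z ≤ 0) :
    slab ν k y H Z = 0 := by
  unfold slab
  refine sum_eq_zero fun i _ => ?_
  have h1 : Z - ν * i ≤ 0 := by
    have : 0 ≤ ν * i := by positivity
    linarith
  rw [max_eq_right h1]
  split_ifs
  · rfl
  · exact min_eq_right (Nat.cast_nonneg y)

end Pool.Agent.TH603.Cut
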