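import Pool.Agent.H15.G.R_seed8.TH176.Nag.Region
import Pool.Agent.H15.G.R_seed8.TH603.Cut.FlatS

/-! Exact flattenings of right triangles of real slope: emptiness. -/

namespace Pool.Agent.TH603.Cut

open Finset Pool.Agent.TH176.Nag Pool.Agent.TH603.Sur

variable {ι : Type} {w : ι → ℕ}

/-- the lattice points of the right triangle `x + 1 + ν y ≤ Z` -/
def Cl (Z ν : ℝ) : Set (ℤ × ℤ) := {p | 0 ≤ p.1 ∧ 0 ≤ p.2 ∧ (p.1 : ℝ) + 1 + ν * p.2 ≤ Z}

theorem Emp_none {S : Set (ℤ × ℤ)} (hS : ∀ p ∈ S, False) : Emp w S := by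
  refine ⟨ℚ, inferInstance, inferInstance, fun _ => 1, fun _ => 1, fun _ => one_ne_zero,
    fun _ => one_ne_zero, fun f hf _ => ?_⟩
  rw [← Finsupp.support_eq_empty, Finset.eq_empty_iff_forall_notMem]
  exact fun m hm => hS m (hf hm)

/-- sorting rows and spreading the top row -/
theorem Emp_spread {S : Set (ℤ × ℤ)} {n' Z' : ℝ} {σ : ℕ} (hσ : (σ : ℝ) + 1 ≤ n') {J : ℕ}
    {ρ : ℕ → ℝ} (hpos : ∀ p ∈ S, 0 ≤ p.2)
    (hcard : ∀ (j : ℕ) (B : Finset ℤ), (∀ c ∈ B, ((c, (j : ℤ)) : ℤ × ℤ) ∈ S) → (B.card : ℝ) ≤ ρ j)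
    (h1 : ∀ j < J, ρ j ≤ Z' - (n' - σ) - n' * j) (h2 : ρ J + σ * J ≤ Z')
    (h3 : ∀ j, J < j → ρ j < 1) (h : Emp w (Cl Z' n')) : Emp w S := by
  classical
  -- spread
  have hA : Emp w {p : ℤ × ℤ | 0 ≤ p.2 ∧ 0 ≤ p.1 - σ * p.2 ∧
      ((p.1 : ℝ) - σ * p.2) + 1 + n' * p.2 ≤ Z'} := by
    refine h.comap 1 (-(σ : ℤ)) 0 1 0 0 (by norm_num) ?_
    rintro ⟨a, b⟩ ⟨g1, g2, g3⟩
    simp only at g1 g2 g3
    refine ⟨by simp only; linarith, by simp only; linarith, ?_⟩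
    simp only
    push_cast
    linarith
  have hB : Emp w {p : ℤ × ℤ | 0 ≤ p.2 ∧ 0 ≤ p.1 - σ * p.2 ∧
      ((p.1 : ℝ) - σ * p.2) + 1 ≤ ρ p.2.toNat} := by
    refine Emp_flat0 ?_ hA
    intro c B hBm k hk
    have hB2 : ∀ b ∈ B, ∃ j : ℕ, b = j ∧ (σ : ℝ) * j ≤ c ∧ (c : ℝ) + 1 ≤ ρ j + σ * j ∧ j ≤ J := by
      intro b hb
      obtain ⟨g1, g2, g3⟩ := hBm b hb
      simp only at g1 g2 g3
      obtain ⟨j, rfl⟩ := Int.eq_ofNat_of_zero_le g1
      simp only [Int.toNat_natCast, Int.cast_natCast] at g2 g3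
      have g2' : (σ : ℝ) * j ≤ c := by
        have : (σ : ℤ) * j ≤ c := by linarith
        exact_mod_cast this
      refine ⟨j, rfl, g2', by linarith, ?_⟩
      by_contra hcon
      have := h3 j (not_le.1 hcon)
      linarith
    -- the largest row
    have hne : B.Nonempty := card_pos.1 (by omega)
    obtain ⟨jm, hjm1, hjm2, hjm3, hjm4⟩ := hB2 _ (B.max'_mem hne)
    have hsub : B ⊆ Finset.Icc (0 : ℤ) (jm : ℤ) := by
      intro b hb
      rw [Finset.mem_Icc]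
      obtain ⟨j, hj, -⟩ := hB2 b hb
      exact ⟨by omega, hjm1 ▸ B.le_max' b hb⟩
    have hkjm : k ≤ jm := by
      have h5 := card_le_card hsub
      rw [Int.card_Icc] at h5
      omega
    have hkR : (k : ℝ) ≤ jm := by exact_mod_cast hkjm
    have hσ0 : (0 : ℝ) ≤ σ := Nat.cast_nonneg σ
    have hnσ : 0 ≤ n' - σ := by linarith
    refine ⟨by simp, ?_, ?_⟩
    · simp only
      have h5 : (σ : ℝ) * k ≤ c := (mul_le_mul_of_nonneg_left hkR hσ0).trans hjm2
      have h6 : (σ : ℤ) * k ≤ c := by exact_mod_cast h5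
      linarith
    · simp only [Int.cast_natCast]
      -- the bound for a row below the top
      have low : ∀ j : ℕ, j < J → (c : ℝ) + 1 ≤ ρ j + σ * j → (c : ℝ) + 1 ≤ Z' - (n' - σ) * (j + 1) := by
        intro j hj hc
        have := h1 j hj
        linarith
      rcases Nat.lt_or_ge jm J with hlt | hge
      · have h5 := low jm hlt hjm3
        have h6 : (n' - σ) * k ≤ (n' - σ) * (jm + 1) := by
          apply mul_le_mul_of_nonneg_left _ hnσ
          linarith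
        linarith
      · have hjJ : jm = J := le_antisymm hjm4 hge
        rcases Nat.eq_zero_or_pos k with hk0 | hk0
        · subst hk0
          rw [hjJ] at hjm3
          simp only [Nat.cast_zero, mul_zero]
          linarith
        · -- remove the top row
          have hcard2 : k ≤ (B.erase (J : ℤ)).card := by
            have := Finset.pred_card_le_card_erase (s := B) (a := (J : ℤ))
            omega
          have hne2 : (B.erase (J : ℤ)).Nonempty := card_pos.1 (by omega)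
          obtain ⟨j2, hj21, hj22, hj23, hj24⟩ := hB2 _ (Finset.mem_of_mem_erase ((B.erase (J : ℤ)).max'_mem hne2))
          have hj2J : j2 < J := by
            rcases Nat.lt_or_ge j2 J with h | h
            · exact h
            · exfalso
              have h7 : j2 = J := le_antisymm hj24 h
              have h8 := (B.erase (J : ℤ)).max'_mem hne2
              rw [hj21, h7] at h8
              exact Finset.notMem_erase _ _ h8
          have hsub2 : B.erase (J : ℤ) ⊆ Finset.Icc (0 : ℤ) (j2 : ℤ) := by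
            intro b hb
            rw [Finset.mem_Icc]
            obtain ⟨j, hj, -⟩ := hB2 b (Finset.mem_of_mem_erase hb)
            exact ⟨by omega, hj21 ▸ (B.erase (J : ℤ)).le_max' b hb⟩
          have hkj2 : k ≤ j2 + 1 := by
            have h5 := card_le_card hsub2
            rw [Int.card_Icc] at h5
            omega
          have hkR2 : (k : ℝ) ≤ j2 + 1 := by exact_mod_cast hkj2
          have h5 := low j2 hj2J hj23
          have h6 : (n' - σ) * k ≤ (n' - σ) * (j2 + 1) := mul_le_mul_of_nonneg_left hkR2 hnσ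
          linarith
  have hC : Emp w {p : ℤ × ℤ | 0 ≤ p.2 ∧ 0 ≤ p.1 ∧ (p.1 : ℝ) + 1 ≤ ρ p.2.toNat} := by
    refine hB.comap 1 (σ : ℤ) 0 1 0 0 (by norm_num) ?_
    rintro ⟨a, b⟩ ⟨g1, g2, g3⟩
    simp only at g1 g2 g3
    refine ⟨by simp only; linarith, by simp only; linarith, ?_⟩
    simp only
    have e : 0 * a + 1 * b + 0 = b := by ring
    rw [e]
    push_cast
    linarith
  -- sort
  have hC' : Emp w {p : ℤ × ℤ | 0 ≤ p.1 ∧ 0 ≤ p.2 ∧ (p.2 : ℝ) + 1 ≤ ρ p.1.toNat} := by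
    refine hC.comap 0 1 1 0 0 0 (by norm_num) ?_
    rintro ⟨a, b⟩ ⟨g1, g2, g3⟩
    simp only at g1 g2 g3
    refine ⟨by simp only; linarith, by simp only; linarith, ?_⟩
    simp only
    have e : 1 * a + 0 * b + 0 = a := by ring
    have e' : 0 * a + 1 * b + 0 = b := by ring
    rw [e, e']
    exact g3
  have hD : Emp w {p : ℤ × ℤ | ((p.2, p.1) : ℤ × ℤ) ∈ S} := by
    refine Emp_flat0 ?_ hC'
    intro j B hBm k hk
    have hj : 0 ≤ j := by
      obtain ⟨b, hb⟩ := card_pos.1 (show 0 < B.card by omega)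
      exact hpos _ (hBm b hb)
    obtain ⟨j', rfl⟩ := Int.eq_ofNat_of_zero_le hj
    have h5 := hcard j' B hBm
    have h6 : ((k + 1 : ℕ) : ℝ) ≤ B.card := by exact_mod_cast hk
    refine ⟨by simp, by simp, ?_⟩
    simp only [Int.toNat_natCast, Int.cast_natCast]
    push_cast at h6
    linarith
  refine hD.comap 0 1 1 0 0 0 (by norm_num) ?_
  rintro ⟨a, b⟩ hab
  simpa using hab

theorem card_slabF_le {k y H : ℕ} {ν Z : ℝ} :
    ((slabF k y H fun I => ⌊Z - ν * I⌋₊).card : ℝ) ≤ slab ν k y H Z := by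
  rw [card_slabF]
  refine sum_le_sum fun i _ => ?_
  have h1 : ((⌊Z - ν * i⌋₊ : ℕ) : ℝ) ≤ max (Z - ν * i) 0 := by
    rcases le_total 0 (Z - ν * i) with h | h
    · rw [max_eq_left h]; exact Nat.floor_le h
    · rw [max_eq_right h, Nat.floor_of_nonpos h]; simp
  split_ifs
  · exact h1
  · exact min_le_min le_rfl h1

/-- **the exact move**, emptiness -/
theorem move_E {ν n' Z Z' : ℝ} (hν : 0 < ν) {k y : ℕ} (hc : IsCoprime (k : ℤ) (y : ℤ)) (hk : 0 < k)
    (hn' : n' * ν = (ν * k + y) ^ 2) (hn2 : 2 ≤ n')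
    (hZ : (ν * k + y) * (Z + ν / 2) + ν ^ 2 / 8 ≤ (Z' - 2 + n' / 2) * ν)
    (htop : ∀ j : ℕ, 0 ≤ Z - (ν * k + y) * j → Z - (ν * k + y) * j < ν * k + y →
      (Z - (ν * k + y) * j + ν / 2) ^ 2 / (2 * ν) + (n' - 1) * j ≤ Z')
    (h : Emp w (Cl Z' n')) : Emp w (Cl Z ν) := by
  classical
  rcases le_or_gt Z 0 with hZ0 | hZ0
  · refine Emp_none fun p hp => ?_
    obtain ⟨h1, h2, h3⟩ := hp
    have h1' : (0 : ℝ) ≤ p.1 := by exact_mod_cast h1
    have h2' : (0 : ℝ) ≤ p.2 := by exact_mod_cast h2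
    have := mul_nonneg hν.le h2'
    linarith
  obtain ⟨Δ, hΔ⟩ : ∃ Δ : ℝ, Δ = ν * k + y := ⟨_, rfl⟩
  have hkR : (0 : ℝ) < k := by exact_mod_cast hk
  have hΔ0 : 0 < Δ := by rw [hΔ]; positivity
  rw [← hΔ] at hn' hZ
  simp only [← hΔ] at htop
  obtain ⟨a, b, hab⟩ := hc
  refine Emp_flat (S' := {p : ℤ × ℤ | 0 ≤ p.2 ∧ ∃ I X : ℕ, (I < k ∨ X < y) ∧
    p.1 = (k : ℤ) * X - y * I ∧ (X : ℝ) + 1 + ν * I ≤ Z - Δ * p.2}) (k : ℤ) (-(y : ℤ)) a (-b)
    (by linear_combination hab) ?_ ?_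
  · rintro ⟨X1, I1⟩ T kk ⟨h1, h2, h3⟩ ⟨h4, h5, h6⟩ hT
    simp only at h1 h2 h3 h4 h5 h6
    obtain ⟨X, rfl⟩ := Int.eq_ofNat_of_zero_le h1
    obtain ⟨I, rfl⟩ := Int.eq_ofNat_of_zero_le h2
    -- the minimal point of the line
    obtain ⟨i, hi⟩ : ∃ i : ℕ, y * i ≤ X ∧ k * i ≤ I ∧ (I - k * i < k ∨ X - y * i < y) := by
      rcases Nat.eq_zero_or_pos y with hy0 | hy0
      · refine ⟨I / k, by rw [hy0]; simp, Nat.mul_div_le I k, Or.inl ?_⟩
        have := Nat.div_add_mod I k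
        have := Nat.mod_lt I hk
        omega
      rcases le_total (I / k) (X / y) with h | h
      · refine ⟨I / k, ?_, Nat.mul_div_le I k, Or.inl ?_⟩
        · exact (Nat.mul_le_mul_left y h).trans (Nat.mul_div_le X y)
        · have := Nat.div_add_mod I k
          have := Nat.mod_lt I hk
          omega
      · refine ⟨X / y, Nat.mul_div_le X y, ?_, Or.inr ?_⟩
        · exact (Nat.mul_le_mul_left k h).trans (Nat.mul_div_le I k)
        · have := Nat.div_add_mod X y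
          have := Nat.mod_lt X hy0
          omega
    obtain ⟨hi1, hi2, hi3⟩ := hi
    refine ⟨by simp, I - k * i, X - y * i, hi3, ?_, ?_⟩
    · push_cast [Nat.cast_sub hi1, Nat.cast_sub hi2]; ring
    · simp only [Int.cast_natCast]
      push_cast [Nat.cast_sub hi1, Nat.cast_sub hi2] at h6 ⊢
      have hTR : (kk : ℝ) ≤ T := by exact_mod_cast hT
      have h7 : Δ * kk ≤ Δ * T := mul_le_mul_of_nonneg_left hTR hΔ0.le
      have h8 : 0 ≤ Δ * i := by positivity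
      rw [hΔ] at h7 h8 ⊢
      nlinarith
  -- the rows
  obtain ⟨J, hJ⟩ : ∃ J : ℕ, J = ⌊Z / Δ⌋₊ := ⟨_, rfl⟩
  have hJ1 : Δ * J ≤ Z := by
    have := Nat.floor_le (show 0 ≤ Z / Δ by positivity)
    rw [← hJ, le_div_iff₀ hΔ0] at this
    linarith
  have hJ2 : Z < Δ * (J + 1) := by
    have := Nat.lt_floor_add_one (Z / Δ)
    rw [← hJ, div_lt_iff₀ hΔ0] at this
    linarith
  obtain ⟨H0, hH0⟩ := exists_nat_ge (Z / ν)
  obtain ⟨H, hH⟩ : ∃ H : ℕ, H = H0 + k + 1 := ⟨_, rfl⟩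
  have hH1 : Z ≤ ν * H0 := by
    rw [div_le_iff₀ hν] at hH0; linarith
  have hHk : (H0 : ℝ) ≤ ((H - k : ℕ) : ℝ) := by exact_mod_cast (show H0 ≤ H - k by omega)
  have hHH : (H0 : ℝ) ≤ (H : ℝ) := by exact_mod_cast (show H0 ≤ H by omega)
  have hsig : ((⌊n'⌋₊ - 1 : ℕ) : ℝ) + 1 ≤ n' := by
    have h1 : 1 ≤ ⌊n'⌋₊ := Nat.le_floor (by push_cast; linarith)
    push_cast [Nat.cast_sub h1]
    have := Nat.floor_le (show 0 ≤ n' by linarith)
    linarith
  have hsig2 : n' - ((⌊n'⌋₊ - 1 : ℕ) : ℝ) ≤ 2 := by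
    have h1 : 1 ≤ ⌊n'⌋₊ := Nat.le_floor (by push_cast; linarith)
    push_cast [Nat.cast_sub h1]
    have := Nat.lt_floor_add_one n'
    linarith
  refine Emp_spread (σ := ⌊n'⌋₊ - 1) hsig (J := J) (ρ := fun j => slab ν k y H (Z - Δ * j))
    (fun p hp => hp.1) ?_ ?_ ?_ ?_ h
  · -- cardinality
    intro j B hB
    refine le_trans ?_ card_slabF_le
    have hsub : B ⊆ (slabF k y H fun I => ⌊(Z - Δ * j) - ν * I⌋₊).image
        fun q => (k : ℤ) * q.2 - y * q.1 := by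
      intro c hcB
      obtain ⟨-, I, X, h1, h2, h3⟩ := hB c hcB
      simp only [Int.cast_natCast] at h2 h3
      rw [mem_image]
      refine ⟨⟨I, X⟩, ?_, h2.symm⟩
      rw [mem_slabF]
      have hX0 : (0 : ℝ) ≤ X := Nat.cast_nonneg X
      have hI0 : (0 : ℝ) ≤ I := Nat.cast_nonneg I
      have hj0 : 0 ≤ Δ * j := by positivity
      refine ⟨?_, ?_, h1⟩
      · have h4 : ν * (I : ℝ) < ν * H0 := by linarith
        have h5 : (I : ℝ) < H0 := lt_of_mul_lt_mul_left h4 hν.le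
        have h6 : I < H0 := by exact_mod_cast h5
        omega
      · rw [Nat.lt_iff_add_one_le]
        apply Nat.le_floor
        push_cast
        linarith
    have := (card_le_card hsub).trans card_image_le
    exact_mod_cast this
  · intro j hj
    have hjR : (j : ℝ) + 1 ≤ J := by exact_mod_cast hj
    have h1 : Δ * ((j : ℝ) + 1) ≤ Δ * J := mul_le_mul_of_nonneg_left hjR hΔ0.le
    have h2 : ν * k + y ≤ Z - Δ * j := by rw [← hΔ]; linarith
    have h3 := slab_up hν (k := k) (y := y) (H := H) (by omega) h2 (by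
      rw [← hΔ]
      have : ν * (H0 : ℝ) ≤ ν * ((H - k : ℕ) : ℝ) := mul_le_mul_of_nonneg_left hHk hν.le
      have : 0 ≤ Δ * j := by positivity
      linarith)
    rw [← hΔ] at h3
    have h4 : slab ν k y H (Z - Δ * j) * (2 * ν) ≤ (Z' - 2 - n' * j) * (2 * ν) := by
      have e : 2 * Δ * (Z - Δ * j + ν / 2) = 2 * (Δ * (Z + ν / 2)) - 2 * j * (n' * ν) := by
        rw [hn']; ring
      rw [e, ← hn'] at h3
      linarith
    have h5 := le_of_mul_le_mul_right h4 (by linarith)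
    linarith
  · have h1 := htop J (by linarith) (by linarith)
    have h2 := slab_top hν (k := k) (y := y) (H := H) (by omega) (Z := Z - Δ * J) (by linarith)
    have h3 : slab ν k y H (Z - Δ * J) ≤ (Z - Δ * J + ν / 2) ^ 2 / (2 * ν) := by
      rw [le_div_iff₀ (by linarith)]; linarith
    have h4 : ((⌊n'⌋₊ - 1 : ℕ) : ℝ) * J ≤ (n' - 1) * J :=
      mul_le_mul_of_nonneg_right (by linarith) (Nat.cast_nonneg J)
    linarith
  · intro j hj
    have hjR : (J : ℝ) + 1 ≤ j := by exact_mod_cast hj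
    have h1 : Δ * ((J : ℝ) + 1) ≤ Δ * j := mul_le_mul_of_nonneg_left hjR hΔ0.le
    rw [slab_zero hν (by linarith)]
    norm_num

theorem sum_range_real (s : ℕ) : ∑ i ∈ range s, (i : ℝ) = s * (s - 1) / 2 := by
  induction s with
  | zero => simp
  | succ s ih => rw [sum_range_succ, ih]; push_cast; ring

/-- **merging `s` consecutive rows**, emptiness -/
theorem merge_E {ν Z Z' : ℝ} (hν : 0 < ν) {s : ℕ} (hs : 0 < s) (hsν : 1 ≤ s * ν)
    (hn2 : 2 ≤ s ^ 2 * ν) (hZ : s * (Z + ν / 2) ≤ Z' - 2 + s ^ 2 * ν / 2)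
    (htop : ∀ j : ℕ, 0 ≤ Z - s * ν * j → Z - s * ν * j < s * ν →
      (Z - s * ν * j + ν / 2) ^ 2 / (2 * ν) + (s ^ 2 * ν - 1) * j ≤ Z')
    (h : Emp w (Cl Z' (s ^ 2 * ν))) : Emp w (Cl Z ν) := by
  classical
  rcases le_or_gt Z 0 with hZ0 | hZ0
  · refine Emp_none fun p hp => ?_
    obtain ⟨h1, h2, h3⟩ := hp
    have h1' : (0 : ℝ) ≤ p.1 := by exact_mod_cast h1
    have h2' : (0 : ℝ) ≤ p.2 := by exact_mod_cast h2
    have := mul_nonneg hν.le h2'
    linarith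
  have hsR : (0 : ℝ) < s := by exact_mod_cast hs
  obtain ⟨Δ, hΔ⟩ : ∃ Δ : ℝ, Δ = s * ν := ⟨_, rfl⟩
  have hΔ0 : 0 < Δ := by rw [hΔ]; positivity
  rw [← hΔ] at hsν
  simp only [← hΔ] at htop
  obtain ⟨n', hn'⟩ : ∃ n' : ℝ, n' = s ^ 2 * ν := ⟨_, rfl⟩
  rw [← hn'] at hn2 hZ htop h
  have hnΔ : n' = s * Δ := by rw [hn', hΔ]; ring
  refine Emp_flat (S' := {p : ℤ × ℤ | 0 ≤ p.2 ∧ ∃ I X : ℕ, I < s ∧
    p.1 = (s : ℤ) * X + (s * p.2 + I) ∧ (X : ℝ) + 1 + ν * I ≤ Z - Δ * p.2}) (s : ℤ) 1 0 1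
    (by ring) ?_ ?_
  · rintro ⟨X1, I1⟩ T kk ⟨h1, h2, h3⟩ ⟨h4, h5, h6⟩ hT
    simp only at h1 h2 h3 h4 h5 h6
    obtain ⟨X, rfl⟩ := Int.eq_ofNat_of_zero_le h1
    obtain ⟨I, rfl⟩ := Int.eq_ofNat_of_zero_le h2
    obtain ⟨i1, r, hr, hI⟩ : ∃ i1 r : ℕ, r < s ∧ I = s * i1 + r :=
      ⟨I / s, I % s, Nat.mod_lt I hs, (Nat.div_add_mod I s).symm⟩
    -- the point in the slab `kk`
    obtain ⟨X2, hX2⟩ := Int.eq_ofNat_of_zero_le (show 0 ≤ (X : ℤ) + i1 - kk by linarith)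
    refine ⟨by simp, r, X2, hr, ?_, ?_⟩
    · simp only
      rw [← hX2, hI]; push_cast; ring
    · simp only [Int.cast_natCast]
      have e : (X2 : ℝ) = X + i1 - kk := by exact_mod_cast hX2.symm
      rw [e]
      have e2 : (I : ℝ) = s * i1 + r := by exact_mod_cast hI
      push_cast at h6
      rw [e2] at h6
      have h7 : (kk : ℝ) ≤ i1 + T := by
        have : (kk : ℤ) ≤ i1 + T := by linarith [Int.natCast_nonneg i1]
        exact_mod_cast this
      have h8 : 0 ≤ ((i1 : ℝ) + T - kk) * (Δ - 1) := mul_nonneg (by linarith) (by linarith)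
      rw [hΔ] at h8 ⊢
      nlinarith
  -- the rows
  obtain ⟨J, hJ⟩ : ∃ J : ℕ, J = ⌊Z / Δ⌋₊ := ⟨_, rfl⟩
  have hJ1 : Δ * J ≤ Z := by
    have := Nat.floor_le (show 0 ≤ Z / Δ by positivity)
    rw [← hJ, le_div_iff₀ hΔ0] at this
    linarith
  have hJ2 : Z < Δ * (J + 1) := by
    have := Nat.lt_floor_add_one (Z / Δ)
    rw [← hJ, div_lt_iff₀ hΔ0] at this
    linarith
  have hsig : ((⌊n'⌋₊ - 1 : ℕ) : ℝ) + 1 ≤ n' := by
    have h1 : 1 ≤ ⌊n'⌋₊ := Nat.le_floor (by push_cast; linarith)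
    push_cast [Nat.cast_sub h1]
    have := Nat.floor_le (show 0 ≤ n' by linarith)
    linarith
  have hsig2 : n' - ((⌊n'⌋₊ - 1 : ℕ) : ℝ) ≤ 2 := by
    have h1 : 1 ≤ ⌊n'⌋₊ := Nat.le_floor (by push_cast; linarith)
    push_cast [Nat.cast_sub h1]
    have := Nat.lt_floor_add_one n'
    linarith
  refine Emp_spread (σ := ⌊n'⌋₊ - 1) hsig (J := J)
    (ρ := fun j => ∑ i ∈ range s, max (Z - Δ * j - ν * i) 0)
    (fun p hp => hp.1) ?_ ?_ ?_ ?_ h
  · -- cardinality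
    intro j B hB
    have hle : ((((range s).sigma fun i => range ⌊Z - Δ * j - ν * i⌋₊).card : ℕ) : ℝ) ≤
        ∑ i ∈ range s, max (Z - Δ * j - ν * i) 0 := by
      rw [card_sigma]
      push_cast
      refine sum_le_sum fun i _ => ?_
      rw [card_range]
      rcases le_total 0 (Z - Δ * j - ν * i) with h | h
      · rw [max_eq_left h]; exact Nat.floor_le h
      · rw [max_eq_right h, Nat.floor_of_nonpos h]; simp
    refine le_trans ?_ hle
    have hsub : B ⊆ ((range s).sigma fun i => range ⌊Z - Δ * j - ν * i⌋₊).image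
        fun q => (s : ℤ) * q.2 + (s * j + q.1) := by
      intro c hcB
      obtain ⟨-, I, X, h1, h2, h3⟩ := hB c hcB
      simp only [Int.cast_natCast] at h2 h3
      rw [mem_image]
      refine ⟨⟨I, X⟩, ?_, h2.symm⟩
      rw [mem_sigma, mem_range, mem_range]
      refine ⟨h1, ?_⟩
      rw [Nat.lt_iff_add_one_le]
      apply Nat.le_floor
      push_cast
      linarith
    have := (card_le_card hsub).trans card_image_le
    exact_mod_cast this
  · intro j hj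
    have hjR : (j : ℝ) + 1 ≤ J := by exact_mod_cast hj
    have h1 : Δ * ((j : ℝ) + 1) ≤ Δ * J := mul_le_mul_of_nonneg_left hjR hΔ0.le
    have h2 : Δ ≤ Z - Δ * j := by linarith
    have h3 : ∑ i ∈ range s, max (Z - Δ * j - ν * i) 0 = s * (Z - Δ * j) - ν * (s * (s - 1) / 2) := by
      rw [← sum_range_real, mul_sum]
      have : (s : ℝ) * (Z - Δ * j) = ∑ _i ∈ range s, (Z - Δ * j) := by
        rw [sum_const, card_range, nsmul_eq_mul]
      rw [this, ← sum_sub_distrib]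
      refine sum_congr rfl fun i hi => ?_
      rw [mem_range] at hi
      have hiR : (i : ℝ) ≤ s := by exact_mod_cast hi.le
      have : ν * i ≤ ν * s := mul_le_mul_of_nonneg_left hiR hν.le
      rw [max_eq_left]
      rw [hΔ] at h2 ⊢
      linarith
    rw [h3]
    have e : (s : ℝ) * (Z - Δ * j) - ν * (s * (s - 1) / 2) = s * (Z + ν / 2) - s ^ 2 * ν / 2 - n' * j := by
      rw [hnΔ]; ring
    rw [e, ← hn']
    linarith
  · have h1 := htop J (by linarith) (by linarith)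
    have h2 := sum_up hν (Z - Δ * J) s
    rw [max_eq_left (by linarith : 0 ≤ Z - Δ * J + ν / 2)] at h2
    have h3 : ∑ i ∈ range s, max (Z - Δ * J - ν * i) 0 ≤ (Z - Δ * J + ν / 2) ^ 2 / (2 * ν) := by
      rw [le_div_iff₀ (by linarith)]; linarith
    have h4 : ((⌊n'⌋₊ - 1 : ℕ) : ℝ) * J ≤ (n' - 1) * J :=
      mul_le_mul_of_nonneg_right (by linarith) (Nat.cast_nonneg J)
    linarith
  · intro j hj
    have hjR : (J : ℝ) + 1 ≤ j := by exact_mod_cast hj
    have h1 : Δ * ((J : ℝ) + 1) ≤ Δ * j := mul_le_mul_of_nonneg_left hjR hΔ0.le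
    have h2 : ∑ i ∈ range s, max (Z - Δ * j - ν * i) 0 = 0 := by
      refine sum_eq_zero fun i _ => max_eq_right ?_
      have : 0 ≤ ν * i := by positivity
      linarith
    rw [h2]
    norm_num

end Pool.Agent.TH603.Cut
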