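import Pool.Agent.H15.G.R_seed8.TH181.Nag.Move

/-! The shape before the last move, with bounds. -/

namespace Pool.Agent.TH603.Cut

open Pool.Agent.TH181.Nag Pool.Agent.TH181.NagM

/-- an element of negative norm -/
theorem neg_norm' {s : ℝ} {M : ℕ} (hM : 1 ≤ M) (hs : s ^ 2 = (M : ℝ) * (M + 4)) {b b' : ℝ}
    (hb : InK s b b') (h0 : 0 < b) (h0' : b' < 0) (hs0 : 0 < s) :
    ∃ k y : ℕ, IsCoprime (k : ℤ) (y : ℤ) ∧ 0 < k ∧ (y : ℝ) * M = -(k * (b * b')) ∧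
      ∃ c : ℚ, 0 < c ∧ (k * (b ^ 2 / M) + y) ^ 2 / (b ^ 2 / M) = c ^ 2 * ((M : ℝ) + 4) := by
  obtain ⟨p, q, rfl, rfl⟩ := hb
  have hM' : (0 : ℝ) < M := by exact_mod_cast hM
  have hMQ : (0 : ℚ) < M := by exact_mod_cast hM
  have hq : (0 : ℝ) < q := by
    have : 0 < 2 * ((q : ℝ) * s) := by linarith
    have h1 : 0 < (q : ℝ) * s := by linarith
    exact (mul_pos_iff_of_pos_right hs0).1 h1
  set r : ℚ := -(p ^ 2 - q ^ 2 * (M * (M + 4))) / M with hr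
  have hprod : ((p : ℝ) + q * s) * (p - q * s) = -(r * M) := by
    rw [hr]; push_cast
    field_simp
    linear_combination (-(q : ℝ) ^ 2) * hs
  have hrpos : (0 : ℝ) < r := by
    have h1 : ((p : ℝ) + q * s) * (p - q * s) < 0 := mul_neg_of_pos_of_neg h0 h0'
    rw [hprod] at h1
    have h2 : 0 < (r : ℝ) * M := by linarith
    exact (mul_pos_iff_of_pos_right hM').1 h2
  have hrpos' : 0 < r := by exact_mod_cast hrpos
  have hnum : 0 < r.num := Rat.num_pos.2 hrpos'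
  have hk : (r : ℝ) * r.den = r.num := by
    have := Rat.mul_den_eq_num r
    exact_mod_cast this
  have hy : ((r.num.toNat : ℕ) : ℝ) = r.num := by
    have : ((r.num.toNat : ℕ) : ℤ) = r.num := Int.toNat_of_nonneg hnum.le
    exact_mod_cast this
  refine ⟨r.den, r.num.toNat, ?_, r.den_pos, ?_, 2 * r.den * q, ?_, ?_⟩
  · have h1 := r.reduced
    rw [Int.isCoprime_iff_gcd_eq_one, Int.gcd_comm]
    have : ((r.num.toNat : ℕ) : ℤ) = r.num := Int.toNat_of_nonneg hnum.le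
    rw [this]
    exact h1
  · rw [hprod, hy, ← hk]; ring
  · have hq' : 0 < q := by exact_mod_cast hq
    have : (0 : ℚ) < r.den := by exact_mod_cast r.den_pos
    positivity
  · rw [hy, ← hk]
    push_cast
    have hb0 : (p : ℝ) + q * s ≠ 0 := h0.ne'
    rw [div_eq_iff (by positivity)]
    have e1 : (r.den : ℝ) * (((p : ℝ) + q * s) ^ 2 / M) + r * r.den =
        r.den * ((p : ℝ) + q * s) * (2 * q * s) / M := by
      have e2 : (r : ℝ) = -(((p : ℝ) + q * s) * (p - q * s)) / M := by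
        rw [hprod]; field_simp
      rw [e2]
      field_simp
      ring
    rw [e1]
    field_simp
    rw [hs]

theorem real_bounds {m x : ℝ} (hm : 100 ≤ m) (hx1 : m + 7 / 2 ≤ x) (hx2 : x ≤ m + 5)
    {K2 n2 K3 n3 K4 n4 K5 n5 : ℝ}
    (hK2 : K2 = x + 1) (hn2 : n2 = K2 ^ 2 / x) (hK3 : K3 = n2 - K2 + (m + 6)) (hn3 : n3 = K3 ^ 2 / n2)
    (hK4 : K4 = n3 - K3 + (m + 8)) (hn4 : n4 = K4 ^ 2 / n3) (hK5 : K5 = n4 - K4 + (m + 12))
    (hn5 : n5 = K5 ^ 2 / n4) : m ≤ n5 ∧ n5 ≤ m + 20 := by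
  have hx0 : 0 < x := by linarith
  have hn2K : n2 - K2 = 1 + 1 / x := by
    rw [hn2, hK2]; field_simp; ring
  have h10 : 0 < 1 / x := by positivity
  have h12 : 1 / x ≤ 1 / 100 := one_div_le_one_div_of_le (by norm_num) (by linarith)
  have a1 : n2 = x + 2 + 1 / x := by linarith
  have a2 : K3 = m + 7 + 1 / x := by linarith
  have q2 : 0 < n2 := by linarith
  have p3 : 0 < K3 := by linarith
  have a3 : n3 ≤ K3 + 2 := by
    rw [hn3, div_le_iff₀ q2]; nlinarith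
  have a4 : K3 ≤ n3 := by
    rw [hn3, le_div_iff₀ q2]; nlinarith
  have q3 : 0 < n3 := by linarith
  have a5 : K4 - n3 = 1 - 1 / x := by linarith
  have p4 : 0 < K4 := by linarith
  have a6 : n4 ≤ K4 + 2 := by
    rw [hn4, div_le_iff₀ q3]
    have : K4 * (K4 - n3) ≤ K4 * 1 := mul_le_mul_of_nonneg_left (by linarith) p4.le
    nlinarith
  have a7 : K4 ≤ n4 := by
    rw [hn4, le_div_iff₀ q3]
    have : 0 ≤ K4 * (K4 - n3) := mul_nonneg p4.le (by linarith)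
    nlinarith
  have q4 : 0 < n4 := by linarith
  have a8 : K5 - n4 = m + 12 - K4 := by linarith
  have p5 : 0 < K5 := by linarith
  have a9 : n5 ≤ K5 + 6 := by
    rw [hn5, div_le_iff₀ q4]
    have : K5 * (K5 - n4) ≤ K5 * 4 := mul_le_mul_of_nonneg_left (by linarith) p5.le
    nlinarith
  have a10 : K5 ≤ n5 := by
    rw [hn5, le_div_iff₀ q4]
    have : 0 ≤ K5 * (K5 - n4) := mul_nonneg p5.le (by linarith)
    nlinarith
  constructor <;> linarith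

theorem conj_bounds {m x y : ℝ} (hm : 100 ≤ m) (hy1 : m ^ 3 ≤ y) (hxy : x = 1 / y)
    {K2 n2 K3 n3 K4 n4 K5 : ℝ}
    (hK2 : K2 = x + 1) (hn2 : n2 = K2 ^ 2 / x) (hK3 : K3 = n2 - K2 + (m + 6)) (hn3 : n3 = K3 ^ 2 / n2)
    (hK4 : K4 = n3 - K3 + (m + 8)) (hn4 : n4 = K4 ^ 2 / n3) (hK5 : K5 = n4 - K4 + (m + 12)) :
    m * n4 ≤ 5 ∧ K5 ≤ -(m / 2) := by
  have hm2 : 100 * m ≤ m ^ 2 := by nlinarith
  have hm3 : 100 * m ^ 2 ≤ m ^ 3 := by nlinarith [sq_nonneg m]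
  have hy0 : 0 < y := by nlinarith
  have hy2 : 10000 * m ≤ y := by linarith
  have hinv : 1 / y ≤ 1 / 100 := one_div_le_one_div_of_le (by norm_num) (by linarith)
  have hinv0 : 0 < 1 / y := by positivity
  have hx0 : 0 < x := by rw [hxy]; exact hinv0
  have hn2K : n2 - K2 = 1 + y := by
    rw [hn2, hK2, hxy]; field_simp; ring
  have e2 : n2 = y + 2 + x := by linarith
  have q2 : 0 < n2 := by linarith
  have e3 : K3 = y + m + 7 := by linarith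
  have p3 : 0 < K3 := by linarith
  have h32 : K3 - n2 = m + 5 - x := by linarith
  have hx1 : x ≤ 1 / 100 := by rw [hxy]; exact hinv
  have a1 : K3 ≤ n3 := by
    rw [hn3, le_div_iff₀ q2]
    have : 0 ≤ K3 * (K3 - n2) := mul_nonneg p3.le (by linarith)
    nlinarith
  have a2 : n3 ≤ K3 + (m + 7) := by
    rw [hn3, div_le_iff₀ q2]
    have h1 : K3 * (K3 - n2) ≤ K3 * (m + 5) := mul_le_mul_of_nonneg_left (by linarith) p3.le
    have h2 : K3 * (m + 5) ≤ (m + 7) * n2 := by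
      rw [e3, e2]
      nlinarith
    nlinarith
  have q3 : 0 < n3 := by linarith
  have a3 : K4 ≤ 2 * m + 15 := by linarith
  have a5 : K4 - n3 = 1 - y := by linarith
  have a4 : m + 8 ≤ K4 := by linarith
  have a6 : m * n4 ≤ 5 := by
    rw [hn4, ← mul_div_assoc, div_le_iff₀ q3]
    have h1 : K4 ^ 2 ≤ (2 * m + 15) ^ 2 := pow_le_pow_left₀ (by linarith) a3 2
    have h2 : (2 * m + 15) ^ 2 ≤ 5 * m ^ 2 := by nlinarith
    have h3 : m * K4 ^ 2 ≤ m * (5 * m ^ 2) := mul_le_mul_of_nonneg_left (by linarith) (by linarith)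
    have h4 : m * (5 * m ^ 2) = 5 * m ^ 3 := by ring
    linarith
  have hn4 : n4 ≤ 1 := by
    have : m * n4 ≤ m * 1 := by linarith
    exact le_of_mul_le_mul_left this (by linarith)
  -- a better lower bound for `K4`
  have a7 : 2 * m + 12 ≤ K4 := by
    have h1 : m + 5 - x ≤ n3 - K3 := by
      have h2 : n3 - K3 = K3 * (K3 - n2) / n2 := by
        rw [hn3]; field_simp
      rw [h2, le_div_iff₀ q2, h32]
      have h3 : n2 ≤ K3 := by linarith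
      have := mul_le_mul_of_nonneg_right h3 (show 0 ≤ m + 5 - x by linarith)
      linarith
    linarith
  exact ⟨a6, by linarith⟩

theorem key_shape {M : ℕ} (hM : 100 ≤ M) : ∃ (ω ν : ℝ) (k y : ℕ) (c : ℚ), 2 ≤ ω ∧
    ω ^ 2 + 1 = (M + 2) * ω ∧ 0 < ν ∧ Mv (1 / M) ((ω ^ 2 - 1) / M) 0 ν ∧
    IsCoprime (k : ℤ) (y : ℤ) ∧ 0 < k ∧ 0 < c ∧ ((c : ℝ) ^ 2 * (M + 4)) * ν = (ν * k + y) ^ 2 ∧
    (M : ℝ) ≤ ν ∧ ν ≤ M + 20 ∧ (M : ℝ) ^ 2 * k ≤ 6 * y := by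
  have hm : (100 : ℝ) ≤ M := by exact_mod_cast hM
  set m : ℝ := (M : ℝ) with hmdef
  set s := √(m * (m + 4)) with hsdef
  have hs : s ^ 2 = m * (m + 4) := Real.sq_sqrt (by positivity)
  have hs0 : 0 ≤ s := Real.sqrt_nonneg _
  have hs1 : m + 1 < s := by nlinarith
  have hs2 : s < m + 2 := by nlinarith
  have hsQ : s ^ 2 = (((M : ℚ) * ((M : ℚ) + 4) : ℚ) : ℝ) := by rw [hs]; push_cast; rfl
  set ω := (m + 2 + s) / 2 with hω
  set ω' := (m + 2 - s) / 2 with hω'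
  have hωω' : ω * ω' = 1 := by rw [hω, hω']; linear_combination (-1 / 4) * hs
  have hω2 : ω ^ 2 + 1 = (m + 2) * ω := by rw [hω]; linear_combination (1 / 4) * hs
  have hω1 : m + 3 / 2 ≤ ω := by rw [hω]; linarith
  have hω3 : ω ≤ m + 2 := by rw [hω]; linarith
  have hωpos : 0 < ω := by linarith
  have hω'pos : 0 < ω' := by rw [hω']; linarith
  have hKω : InK s ω ω' := by
    refine ⟨((M : ℚ) + 2) / 2, 1 / 2, ?_, ?_⟩
    · rw [hω]; push_cast; ring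
    · rw [hω']; push_cast; ring
  have hKm : InK s m m := InK.nat M
  -- the real side
  set x := ω ^ 2 / m with hx
  have hmpos : 0 < m := by linarith
  have hx0 : 0 < x := by positivity
  have hx1 : m + 7 / 2 ≤ x := by
    rw [hx, le_div_iff₀ hmpos]; nlinarith
  have hx2 : x ≤ m + 5 := by
    rw [hx, div_le_iff₀ hmpos]; nlinarith
  set a : ℤ := (M : ℤ) + 6 with ha
  set c : ℤ := (M : ℤ) + 8 with hc
  set d : ℤ := (M : ℤ) + 12 with hd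
  have haR : (a : ℝ) = m + 6 := by rw [ha]; push_cast; rfl
  have hcR : (c : ℝ) = m + 8 := by rw [hc]; push_cast; rfl
  have hdR : (d : ℝ) = m + 12 := by rw [hd]; push_cast; rfl
  obtain ⟨K2, hK2⟩ : ∃ K2, K2 = x + 1 := ⟨_, rfl⟩
  obtain ⟨n2, hn2⟩ : ∃ n2, n2 = K2 ^ 2 / x := ⟨_, rfl⟩
  obtain ⟨K3, hK3⟩ : ∃ K3, K3 = n2 - K2 + a := ⟨_, rfl⟩
  obtain ⟨n3, hn3⟩ : ∃ n3, n3 = K3 ^ 2 / n2 := ⟨_, rfl⟩
  obtain ⟨K4, hK4⟩ : ∃ K4, K4 = n3 - K3 + c := ⟨_, rfl⟩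
  obtain ⟨n4, hn4⟩ : ∃ n4, n4 = K4 ^ 2 / n3 := ⟨_, rfl⟩
  obtain ⟨K5, hK5⟩ : ∃ K5, K5 = n4 - K4 + d := ⟨_, rfl⟩
  obtain ⟨n5, hn5⟩ : ∃ n5, n5 = K5 ^ 2 / n4 := ⟨_, rfl⟩
  obtain ⟨h2, h3, h4⟩ : K2 ≤ a ∧ K3 ≤ c ∧ K4 ≤ d := by
    rw [haR] at hK3 ⊢
    rw [hcR] at hK4 ⊢
    rw [hdR]
    exact real_side (by linarith) hx1 hx2 hK2 hn2 hK3 hn3 hK4
  obtain ⟨hbl, hbu⟩ : m ≤ n5 ∧ n5 ≤ m + 20 := by
    have g1 := hK3
    have g2 := hK4
    have g3 := hK5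
    rw [haR] at g1
    rw [hcR] at g2
    rw [hdR] at g3
    exact real_bounds hm hx1 hx2 hK2 hn2 g1 hn3 g2 hn4 g3 hn5
  obtain ⟨q2, p2, q3, p3, q4, p4, q5, p5, hch⟩ :=
    zigs x hx0 a c d hK2 hn2 hK3 hn3 hK4 hn4 hK5 hn5 h2 h3 h4
  -- the conjugate side
  set x' := ω' ^ 2 / m with hx'
  have hx'0 : 0 < x' := by positivity
  obtain ⟨K2', hK2'⟩ : ∃ K2', K2' = x' + 1 := ⟨_, rfl⟩
  obtain ⟨n2', hn2'⟩ : ∃ n2', n2' = K2' ^ 2 / x' := ⟨_, rfl⟩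
  obtain ⟨K3', hK3'⟩ : ∃ K3', K3' = n2' - K2' + a := ⟨_, rfl⟩
  obtain ⟨n3', hn3'⟩ : ∃ n3', n3' = K3' ^ 2 / n2' := ⟨_, rfl⟩
  obtain ⟨K4', hK4'⟩ : ∃ K4', K4' = n3' - K3' + c := ⟨_, rfl⟩
  obtain ⟨n4', hn4'⟩ : ∃ n4', n4' = K4' ^ 2 / n3' := ⟨_, rfl⟩
  obtain ⟨K5', hK5'⟩ : ∃ K5', K5' = n4' - K4' + d := ⟨_, rfl⟩
  obtain ⟨y, hy⟩ : ∃ y, y = m * ω ^ 2 := ⟨_, rfl⟩
  have hy0 : 0 < y := by rw [hy]; positivity
  have hxy : x' = 1 / y := by
    rw [hx', hy, div_eq_div_iff hmpos.ne' (by positivity)]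
    have : ω' ^ 2 * (m * ω ^ 2) = m * (ω * ω') ^ 2 := by ring
    rw [this, hωω']; ring
  have hy1 : m ^ 3 ≤ y := by
    rw [hy]
    have h10 : m ^ 2 ≤ ω ^ 2 := pow_le_pow_left₀ (by linarith) (by linarith) 2
    have h11 := mul_le_mul_of_nonneg_left h10 hmpos.le
    have e : m ^ 3 = m * m ^ 2 := by ring
    rw [e]; exact h11
  obtain ⟨⟨q2', p2', q3', p3', q4', p4', hneg⟩, hcb1, hcb2⟩ :
      (0 < n2' ∧ 0 < K2' ∧ 0 < n3' ∧ 0 < K3' ∧ 0 < n4' ∧ 0 < K4' ∧ K5' < 0) ∧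
      m * n4' ≤ 5 ∧ K5' ≤ -(m / 2) := by
    have hK3'' := hK3'
    have hK4'' := hK4'
    have hK5'' := hK5'
    rw [haR] at hK3''
    rw [hcR] at hK4''
    rw [hdR] at hK5''
    exact ⟨conj_side (by linarith) hy1 hxy hK2' hn2' hK3'' hn3' hK4'' hn4' hK5'',
      conj_bounds hm hy1 hxy hK2' hn2' hK3'' hn3' hK4'' hn4' hK5''⟩
  -- the widths
  obtain ⟨b2, hb2⟩ : ∃ b2, b2 = K2 * m / ω := ⟨_, rfl⟩
  obtain ⟨b3, hb3⟩ : ∃ b3, b3 = K3 * m / b2 := ⟨_, rfl⟩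
  obtain ⟨b4, hb4⟩ : ∃ b4, b4 = K4 * m / b3 := ⟨_, rfl⟩
  obtain ⟨b5, hb5⟩ : ∃ b5, b5 = K5 * m / b4 := ⟨_, rfl⟩
  obtain ⟨b2', hb2'⟩ : ∃ b2', b2' = K2' * m / ω' := ⟨_, rfl⟩
  obtain ⟨b3', hb3'⟩ : ∃ b3', b3' = K3' * m / b2' := ⟨_, rfl⟩
  obtain ⟨b4', hb4'⟩ : ∃ b4', b4' = K4' * m / b3' := ⟨_, rfl⟩
  obtain ⟨b5', hb5'⟩ : ∃ b5', b5' = K5' * m / b4' := ⟨_, rfl⟩
  have r2 : 0 < b2 := by rw [hb2]; positivity
  have r3 : 0 < b3 := by rw [hb3]; positivity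
  have r4 : 0 < b4 := by rw [hb4]; positivity
  have r5 : 0 < b5 := by rw [hb5]; positivity
  have r2' : 0 < b2' := by rw [hb2']; positivity
  have r3' : 0 < b3' := by rw [hb3']; positivity
  have r4' : 0 < b4' := by rw [hb4']; positivity
  have r5' : b5' < 0 := by
    rw [hb5']
    apply div_neg_of_neg_of_pos _ r4'
    exact mul_neg_of_neg_of_pos hneg hmpos
  have t1 : ω ^ 2 = m * x := by rw [hx]; field_simp
  have t2 : b2 ^ 2 = m * n2 := by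
    rw [hb2, div_pow, t1, hn2]; field_simp
  have t3 : b3 ^ 2 = m * n3 := by
    rw [hb3, div_pow, t2, hn3]; field_simp
  have t4 : b4 ^ 2 = m * n4 := by
    rw [hb4, div_pow, t3, hn4]; field_simp
  have t5 : b5 ^ 2 = m * n5 := by
    rw [hb5, div_pow, t4, hn5]; field_simp
  have hn5b : n5 = b5 ^ 2 / m := by rw [t5]; field_simp
  have t1' : ω' ^ 2 = m * x' := by rw [hx']; field_simp
  have t2' : b2' ^ 2 = m * n2' := by
    rw [hb2', div_pow, t1', hn2']; field_simp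
  have t3' : b3' ^ 2 = m * n3' := by
    rw [hb3', div_pow, t2', hn3']; field_simp
  have t4' : b4' ^ 2 = m * n4' := by
    rw [hb4', div_pow, t3', hn4']; field_simp
  -- conjugate pairs
  have k1 : InK s x x' := (InK.div hsQ (by rw [sq, sq]; exact hKω.mul hsQ hKω) hKm hmpos.ne' hmpos.ne')
  have one : InK s 1 1 := by simpa using InK.nat (s := s) 1
  have k2 : InK s K2 K2' := by rw [hK2, hK2']; exact k1.add one
  have l2 : InK s n2 n2' := by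
    rw [hn2, hn2', sq, sq]; exact (k2.mul hsQ k2).div hsQ k1 hx0.ne' hx'0.ne'
  have k3 : InK s K3 K3' := by rw [hK3, hK3']; exact (l2.sub k2).add (InK.int a)
  have l3 : InK s n3 n3' := by
    rw [hn3, hn3', sq, sq]; exact (k3.mul hsQ k3).div hsQ l2 q2.ne' q2'.ne'
  have k4 : InK s K4 K4' := by rw [hK4, hK4']; exact (l3.sub k3).add (InK.int c)
  have l4 : InK s n4 n4' := by
    rw [hn4, hn4', sq, sq]; exact (k4.mul hsQ k4).div hsQ l3 q3.ne' q3'.ne'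
  have k5 : InK s K5 K5' := by rw [hK5, hK5']; exact (l4.sub k4).add (InK.int d)
  have j2 : InK s b2 b2' := by
    rw [hb2, hb2']; exact (k2.mul hsQ hKm).div hsQ hKω hωpos.ne' hω'pos.ne'
  have j3 : InK s b3 b3' := by
    rw [hb3, hb3']; exact (k3.mul hsQ hKm).div hsQ j2 r2.ne' r2'.ne'
  have j4 : InK s b4 b4' := by
    rw [hb4, hb4']; exact (k4.mul hsQ hKm).div hsQ j3 r3.ne' r3'.ne'
  have j5 : InK s b5 b5' := by
    rw [hb5, hb5']; exact (k5.mul hsQ hKm).div hsQ j4 r4.ne' r4'.ne'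
  obtain ⟨k, y0, hcop, hk, hyk, c0, hc0, hfin⟩ :=
    neg_norm' (M := M) (by omega) hs j5 r5 r5' (by linarith)
  have hsum : 1 / (M : ℝ) + (ω ^ 2 - 1) / M = x := by rw [hx, ← hmdef]; ring
  have h1 := Mv.toRT (μ := 1 / (M : ℝ)) (ν := (ω ^ 2 - 1) / M) (by rw [hsum]; exact hx0)
  rw [hsum] at h1
  refine ⟨ω, n5, k, y0, c0, by linarith, hω2, q5, h1.trans hch, hcop, hk, hc0, ?_, hbl, hbu, ?_⟩
  · rw [← hmdef, ← hn5b, div_eq_iff q5.ne'] at hfin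
    rw [← hfin]; ring
  · -- the size of the negative conjugate
    have hb5m : m ≤ b5 := by
      have : m ^ 2 ≤ b5 ^ 2 := by rw [t5, sq]; exact mul_le_mul_of_nonneg_left hbl hmpos.le
      exact le_of_sq_le_sq this r5.le
    have hb4' : b4' ≤ 3 := by
      have : b4' ^ 2 ≤ 3 ^ 2 := by rw [t4']; linarith
      exact le_of_sq_le_sq this (by norm_num)
    have hb5' : b5' ≤ -(m ^ 2 / 6) := by
      rw [hb5', div_le_iff₀ r4']
      have h10 : K5' * m ≤ -(m / 2) * m := mul_le_mul_of_nonneg_right hcb2 hmpos.le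
      have h11 : (m ^ 2 / 6) * b4' ≤ (m ^ 2 / 6) * 3 := mul_le_mul_of_nonneg_left hb4' (by positivity)
      linarith
    have h12 : m * (m ^ 2 / 6) ≤ -(b5 * b5') := by
      have h13 : m * (m ^ 2 / 6) ≤ b5 * (m ^ 2 / 6) := mul_le_mul_of_nonneg_right hb5m (by positivity)
      have h14 : b5 * (m ^ 2 / 6) ≤ b5 * (-b5') := mul_le_mul_of_nonneg_left (by linarith) r5.le
      linarith
    have h15 : (k : ℝ) * (m * (m ^ 2 / 6)) ≤ k * (-(b5 * b5')) :=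
      mul_le_mul_of_nonneg_left h12 (Nat.cast_nonneg k)
    have h16 : m * (m ^ 2 * k) ≤ m * (6 * y0) := by
      rw [← hmdef] at hyk
      linarith
    exact le_of_mul_le_mul_left h16 hmpos

end Pool.Agent.TH603.Cut
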