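import Pool.Agent.H15.G.R_seed8.TH603.Cut.Trans

/-! One stage: from `M` to a square multiple of `M + 4`. -/

namespace Pool.Agent.TH603.Cut

open Finset Pool.Agent.TH176.Nag Pool.Agent.TH603.Sur Pool.Agent.TH181.NagM

theorem stage_bounds {M σ ρ ν r t : ℝ} (hm : 100 ≤ M) (hσ0 : 0 < σ) (hρ0 : 0 < ρ) (hr0 : 0 < r)
    (hσ2 : σ * σ = M) (hρ2 : ρ * ρ = ν) (hMν : M ≤ ν) (hνM : ν ≤ M + 20) (_hσρ : σ ≤ ρ)
    (hrρ : r * ρ = t) (ht : σ ^ 4 ≤ 6 * t) :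
    ρ ≤ σ + 10 / σ ∧ ν / (8 * r) ≤ 1 / σ ∧ 12 * σ ≤ r ∧ 10 ≤ σ := by
  have hσ10 : 10 ≤ σ := by nlinarith
  have hρσ : ρ * σ ≤ σ * σ + 10 := by
    have h1 : (ρ * σ) ^ 2 ≤ (σ * σ + 10) ^ 2 := by
      have : (ρ * σ) ^ 2 = ν * M := by rw [← hρ2, ← hσ2]; ring
      rw [this, hσ2]
      nlinarith
    exact le_of_sq_le_sq h1 (by positivity)
  have hρ11 : 10 * ρ ≤ 11 * σ := by
    have : 10 * ρ * σ ≤ 11 * σ * σ := by nlinarith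
    exact le_of_mul_le_mul_right this hσ0
  have hr8 : ν * σ ≤ 8 * r := by
    have h1 : 1000 * ρ ^ 3 ≤ 1331 * σ ^ 3 := by
      have := pow_le_pow_left₀ (by positivity) hρ11 3
      have e1 : (10 * ρ) ^ 3 = 1000 * ρ ^ 3 := by ring
      have e2 : (11 * σ) ^ 3 = 1331 * σ ^ 3 := by ring
      linarith
    have h2 : (ν * σ) * ρ ≤ (8 * r) * ρ := by
      have e1 : (ν * σ) * ρ = ρ ^ 3 * σ := by rw [← hρ2]; ring
      have e2 : ρ ^ 3 * σ * 1000 ≤ 1331 * σ ^ 4 := by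
        have := mul_le_mul_of_nonneg_right h1 hσ0.le
        have e3 : 1331 * σ ^ 3 * σ = 1331 * σ ^ 4 := by ring
        have e4 : 1000 * ρ ^ 3 * σ = ρ ^ 3 * σ * 1000 := by ring
        linarith
      rw [e1]
      have h3 : 0 < σ ^ 4 := by positivity
      have h4 : 8 * r * ρ = 8 * t := by rw [← hrρ]; ring
      rw [h4]
      linarith
    exact le_of_mul_le_mul_right h2 hρ0
  refine ⟨?_, ?_, ?_, hσ10⟩
  · rw [← sub_le_iff_le_add', le_div_iff₀ hσ0]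
    linarith [mul_comm ρ σ, sub_mul ρ σ σ]
  · rw [div_le_div_iff₀ (by positivity) hσ0]
    linarith
  · have : M * σ ≤ ν * σ := mul_le_mul_of_nonneg_right hMν hσ0.le
    have : 100 * σ ≤ M * σ := mul_le_mul_of_nonneg_right hm hσ0.le
    linarith

/-- the data of one stage -/
structure Dat (M : ℕ) where
  (ω ν σ ρ r nc : ℝ)
  (k y s nf a : ℕ)
  hω : 2 ≤ ω
  hω2 : ω ^ 2 + 1 = (M + 2) * ω
  hν : 0 < ν
  hMv : Mv (1 / M) ((ω ^ 2 - 1) / M) 0 ν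
  hcop : IsCoprime (k : ℤ) (y : ℤ)
  hk : 0 < k
  hcν : nc * ν = (ν * k + y) ^ 2
  hσ0 : 0 < σ
  hρ0 : 0 < ρ
  hr0 : 0 < r
  hσd : σ = √(M : ℝ)
  hρd : ρ = √ν
  hσ2 : σ * σ = M
  hρ2 : ρ * ρ = ν
  hr2 : r * r = nc
  hσρ : σ ≤ ρ
  hrρ : r * ρ = ν * k + y
  hs : 0 < s
  ha : 0 < a
  hnfa : nf = a ^ 2 * (M + 4)
  hnf : (s : ℝ) ^ 2 * nc = (nf : ℝ)
  hq : √(nf : ℝ) = s * r
  hb1 : ρ ≤ σ + 10 / σ
  hb2 : ν / (8 * r) ≤ 1 / σ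
  hb3 : 12 * σ ≤ r
  hb4 : 10 ≤ σ

theorem exists_dat {M : ℕ} (hM : 100 ≤ M) : Nonempty (Dat M) := by
  obtain ⟨ω, ν, k, y, c, hω, hω2, hν, hMv, hcop, hk, hc, hcν, hMν, hνM, hky⟩ := key_shape hM
  have hm : (100 : ℝ) ≤ M := by exact_mod_cast hM
  have hM0 : (0 : ℝ) < M := by linarith
  obtain ⟨σ, hσd⟩ : ∃ σ, σ = √(M : ℝ) := ⟨_, rfl⟩
  obtain ⟨ρ, hρd⟩ : ∃ ρ, ρ = √ν := ⟨_, rfl⟩
  have hσ0 : 0 < σ := by rw [hσd]; exact Real.sqrt_pos.2 hM0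
  have hρ0 : 0 < ρ := by rw [hρd]; exact Real.sqrt_pos.2 hν
  have hσ2 : σ * σ = M := by rw [hσd]; exact Real.mul_self_sqrt hM0.le
  have hρ2 : ρ * ρ = ν := by rw [hρd]; exact Real.mul_self_sqrt hν.le
  have hσρ : σ ≤ ρ := by
    rw [hσd, hρd]; exact Real.sqrt_le_sqrt hMν
  -- the slopes
  obtain ⟨nc, hnc⟩ : ∃ nc : ℝ, nc = (c : ℝ) ^ 2 * (M + 4) := ⟨_, rfl⟩
  rw [← hnc] at hcν
  have hcR : (0 : ℝ) < c := by exact_mod_cast hc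
  have hnc0 : 0 < nc := by rw [hnc]; positivity
  obtain ⟨r, hrd⟩ : ∃ r, r = √nc := ⟨_, rfl⟩
  have hr0 : 0 < r := by rw [hrd]; exact Real.sqrt_pos.2 hnc0
  have hr2 : r * r = nc := by rw [hrd]; exact Real.mul_self_sqrt hnc0.le
  have hkR : (1 : ℝ) ≤ k := by exact_mod_cast hk
  have hrρ : r * ρ = ν * k + y := by
    have h1 : (r * ρ) ^ 2 = (ν * k + y) ^ 2 := by
      rw [← hcν, ← hr2, ← hρ2]; ring
    exact (pow_left_inj₀ (by positivity) (by positivity) (by norm_num)).1 h1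
  have hrρ6 : σ ^ 4 ≤ 6 * (ν * k + y) := by
    have h1 : (M : ℝ) ^ 2 * 1 ≤ (M : ℝ) ^ 2 * k := mul_le_mul_of_nonneg_left hkR (by positivity)
    have h2 : 0 ≤ ν * k := by positivity
    have h3 : σ ^ 4 = (M : ℝ) ^ 2 := by rw [← hσ2]; ring
    rw [h3]
    linarith
  obtain ⟨hb1, hb2, hb3, hb4⟩ := stage_bounds hm hσ0 hρ0 hr0 hσ2 hρ2 hMν hνM hσρ hrρ hrρ6
  -- the final slope
  have hden : 0 < c.den := c.den_pos
  have hnum : 0 < c.num := Rat.num_pos.2 hc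
  obtain ⟨a, ha⟩ := Int.eq_ofNat_of_zero_le hnum.le
  have ha0 : 0 < a := by omega
  have hcs : (c.den : ℝ) * c = a := by
    have h1 := Rat.mul_den_eq_num c
    have h2 : (c : ℝ) * c.den = (c.num : ℝ) := by exact_mod_cast h1
    have h3 : (c.num : ℝ) = a := by rw [ha]; simp
    linarith
  have hs0 : (0 : ℝ) < c.den := by exact_mod_cast hden
  have hnf : (c.den : ℝ) ^ 2 * nc = ((a ^ 2 * (M + 4) : ℕ) : ℝ) := by
    push_cast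
    rw [← hcs, hnc]; ring
  refine ⟨⟨ω, ν, σ, ρ, r, nc, k, y, c.den, a ^ 2 * (M + 4), a, hω, hω2, hν, hMv, hcop, hk, hcν, hσ0, hρ0,
    hr0, hσd, hρd, hσ2, hρ2, hr2, hσρ, hrρ, hden, ha0, rfl, hnf, ?_, hb1, hb2, hb3, hb4⟩⟩
  rw [← hnf, Real.sqrt_mul (by positivity), Real.sqrt_sq hs0.le, ← hrd]

theorem Dat.fracs {M : ℕ} (X : Dat M) : 1 / X.ρ ≤ 1 / X.σ ∧ 0 < 1 / X.σ ∧
    X.ρ ≤ X.σ + 10 * (1 / X.σ) ∧ 2 ≤ X.nc ∧ 1 ≤ (X.s : ℝ) ∧ 0 < X.nc ∧ (M : ℝ) / X.σ = X.σ ∧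
    X.ν / X.ρ = X.ρ := by
  have h1 := X.hσ0
  have h2 := X.hρ0
  have h3 := X.hb3
  have h4 := X.hb4
  have h5 := X.hr0
  have hnc : 2 ≤ X.nc := by
    rw [← X.hr2]
    nlinarith
  refine ⟨one_div_le_one_div_of_le h1 X.hσρ, by positivity, ?_, hnc, by exact_mod_cast X.hs,
    by linarith, ?_, ?_⟩
  · have := X.hb1
    have e : 10 / X.σ = 10 * (1 / X.σ) := by ring
    linarith
  · rw [← X.hσ2]; field_simp
  · rw [← X.hρ2]; field_simp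

theorem Dat.trS {M : ℕ} (hM1 : 1 ≤ M) (X : Dat M) : TrS M X.nf (7 / √(M : ℝ)) := by
  obtain ⟨f1, f2, f3, f4, f5, f6, f7, f8⟩ := X.fracs
  obtain ⟨ω, ν, σ, ρ, r, nc, k, y, s, nf, a, hω, hω2, hν, hMv, hcop, hk, hcν, hσ0, hρ0,
    hr0, hσd, hρd, hσ2, hρ2, hr2, hσρ, hrρ, hs, ha, hnfa, hnf, hq, hb1, hb2, hb3, hb4⟩ := X
  simp only at f1 f2 f3 f4 f5 f6 f7 f8
  intro ι _ w A A' h1 h2
  simp only at h1 h2
  rw [← hσd] at h1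
  have hs0 : (0 : ℝ) < s := by linarith
  -- merge
  obtain ⟨Z1, hZ1⟩ : ∃ Z1 : ℝ, Z1 = (A' + (nf : ℝ) / 2) / s - nc / 2 := ⟨_, rfl⟩
  have e1 : s * (Z1 + nc / 2) = A' + (nf : ℝ) / 2 := by
    rw [hZ1, sub_add_cancel, mul_div_cancel₀ _ hs0.ne']
  have h3 : Sur w (Op Z1 nc) := by
    refine merge_S f6 (s := s) hs ?_ (Z' := A') ?_ ?_
    · have : 1 * 2 ≤ (s : ℝ) * nc := mul_le_mul f5 f4 (by norm_num) hs0.le
      linarith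
    · rw [e1, hnf]
    · rw [hnf]; exact h2
  obtain ⟨Z, hZ⟩ : ∃ Z : ℝ, Z = ((Z1 + nc / 2) * ν + ν ^ 2 / 8) / (ν * k + y) - ν / 2 := ⟨_, rfl⟩
  have hd0 : 0 < ν * k + y := by rw [← hrρ]; positivity
  have h4 : Sur w (Op Z ν) := by
    refine move_S hν hcop hk hcν (Z' := Z1) ?_ h3
    rw [hZ, sub_add_cancel, mul_div_cancel₀ _ hd0.ne']
  refine shape_S hM1 hω hω2 hν hMv ?_ h4
  rw [← hσd, ← hρd]
  have e2 : (Z + ν / 2) / ρ = sz nf A' + ν / (8 * r) := by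
    rw [hZ, sub_add_cancel, ← hrρ]
    unfold sz
    rw [hq, ← e1, ← hρ2]
    field_simp
  have e3 : (Z + ν + 1) / ρ = (Z + ν / 2) / ρ + ρ / 2 + 1 / ρ := by
    have e4 : (Z + ν + 1) / ρ = (Z + ν / 2) / ρ + (ν / ρ) / 2 + 1 / ρ := by ring
    rw [e4, f8]
  have e5 : (A + M + 1) / σ = sz M A + σ / 2 + 1 / σ := by
    have e6 : (A + M + 1) / σ = (A + (M : ℝ) / 2) / σ + ((M : ℝ) / σ) / 2 + 1 / σ := by ring
    rw [e6, f7]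
    unfold sz
    rw [← hσd]
  have e7 : 7 / σ = 7 * (1 / σ) := by ring
  rw [e3, e2, e5]
  linarith

theorem Dat.trE {M : ℕ} (hM1 : 1 ≤ M) (X : Dat M) : TrE M X.nf (7 / √(M : ℝ)) := by
  obtain ⟨f1, f2, f3, f4, f5, f6, f7, f8⟩ := X.fracs
  obtain ⟨ω, ν, σ, ρ, r, nc, k, y, s, nf, a, hω, hω2, hν, hMv, hcop, hk, hcν, hσ0, hρ0,
    hr0, hσd, hρd, hσ2, hρ2, hr2, hσρ, hrρ, hs, ha, hnfa, hnf, hq, hb1, hb2, hb3, hb4⟩ := X
  simp only at f1 f2 f3 f4 f5 f6 f7 f8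
  simp only
  have hs0 : (0 : ℝ) < s := by linarith
  obtain ⟨T1, hT1⟩ : ∃ T1 : ℝ, T1 = (s * nc) * (((s * nc) + nc / 2) ^ 2 / (2 * nc) + nf / 2) := ⟨_, rfl⟩
  obtain ⟨T2, hT2⟩ : ∃ T2 : ℝ, T2 = (ν * k + y) * (((ν * k + y) + ν / 2) ^ 2 / (2 * ν) + nc / 2) := ⟨_, rfl⟩
  refine ⟨max 0 ⌈max (T1 + nc / 2) (T2 + ν / 2)⌉, fun ι w A A' h0 h1 h2 => ?_⟩
  rw [← hσd] at h1
  have hA0 : (0 : ℝ) ≤ A := by exact_mod_cast (le_max_left _ _).trans h0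
  have hA1 : max (T1 + nc / 2) (T2 + ν / 2) ≤ A := by
    have h3 := Int.le_ceil (max (T1 + nc / 2) (T2 + ν / 2))
    have h4 : (⌈max (T1 + nc / 2) (T2 + ν / 2)⌉ : ℝ) ≤ A := by exact_mod_cast (le_max_right _ _).trans h0
    linarith
  have hA2 : T1 + nc / 2 ≤ A := (le_max_left _ _).trans hA1
  have hA3 : T2 + ν / 2 ≤ A := (le_max_right _ _).trans hA1
  obtain ⟨Z1, hZ1⟩ : ∃ Z1 : ℝ, Z1 = (A' - 2 + (nf : ℝ) / 2) / s - nc / 2 := ⟨_, rfl⟩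
  have e1 : s * (Z1 + nc / 2) = A' - 2 + (nf : ℝ) / 2 := by
    rw [hZ1, sub_add_cancel, mul_div_cancel₀ _ hs0.ne']
  obtain ⟨Z, hZ⟩ : ∃ Z : ℝ, Z = ((Z1 - 2 + nc / 2) * ν - ν ^ 2 / 8) / (ν * k + y) - ν / 2 := ⟨_, rfl⟩
  have hd0 : 0 < ν * k + y := by rw [← hrρ]; positivity
  -- sizes
  have e2 : (Z1 + nc / 2) / r = sz nf A' - 2 / (s * r) := by
    unfold sz
    rw [hq]
    have : (Z1 + nc / 2) / r = (s * (Z1 + nc / 2)) / (s * r) := by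
      rw [mul_div_mul_left _ _ hs0.ne']
    rw [this, e1]
    ring
  have e3 : (Z + ν / 2) / ρ = (Z1 + nc / 2) / r - 2 / r - ν / (8 * r) := by
    rw [hZ, sub_add_cancel, ← hrρ]
    rw [← hρ2]
    field_simp
    ring
  have h2r : 2 / r ≤ 1 / σ / 6 := by
    rw [div_div, div_le_div_iff₀ hr0 (by positivity)]
    linarith
  have h2sr : 2 / (s * r) ≤ 2 / r := by
    apply div_le_div_of_nonneg_left (by norm_num) hr0
    have := mul_le_mul_of_nonneg_right f5 hr0.le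
    linarith
  have e7 : 7 / σ = 7 * (1 / σ) := by ring
  have hszA : A / σ ≤ sz M A := by
    unfold sz
    rw [← hσd]
    apply div_le_div_of_nonneg_right _ hσ0.le
    have : (0 : ℝ) ≤ M := Nat.cast_nonneg _
    linarith
  have b1 : A / σ ≤ (Z1 + nc / 2) / r := by rw [e2]; linarith
  have b2 : A / σ ≤ (Z + ν / 2) / ρ := by rw [e3, e2]; linarith
  have hZ1l : T1 ≤ Z1 := by
    rw [div_le_div_iff₀ hσ0 hr0] at b1
    have h3 : A * σ ≤ A * r := mul_le_mul_of_nonneg_left (by linarith) hA0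
    have h4 : A * σ ≤ (Z1 + nc / 2) * σ := h3.trans b1
    have h5 := le_of_mul_le_mul_right h4 hσ0
    linarith
  have hZl : T2 ≤ Z := by
    rw [div_le_div_iff₀ hσ0 hρ0] at b2
    have h3 : A * σ ≤ A * ρ := mul_le_mul_of_nonneg_left hσρ hA0
    have h4 : A * σ ≤ (Z + ν / 2) * σ := h3.trans b2
    have h5 := le_of_mul_le_mul_right h4 hσ0
    linarith
  have hsnc : 1 * 2 ≤ (s : ℝ) * nc := mul_le_mul f5 f4 (by norm_num) hs0.le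
  have hs2nc : 1 * 2 ≤ (s : ℝ) ^ 2 * nc := mul_le_mul (one_le_pow₀ f5) f4 (by norm_num) (by positivity)
  have h3 : Emp w (Cl Z1 nc) := by
    refine merge_E f6 (s := s) hs (by linarith) (by linarith) (Z' := A') ?_ ?_ ?_
    · rw [e1, hnf]
    · refine top_of_large (n' := s ^ 2 * nc) f6 (by linarith) (by ring) (by linarith) ?_ ?_
      · rw [hnf, mul_assoc, mul_comm nc, ← mul_assoc, e1]
      · rw [hnf, ← hT1]; exact hZ1l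
    · rw [hnf]; exact h2
  have h4 : Emp w (Cl Z ν) := by
    refine move_E hν hcop hk hcν f4 (Z' := Z1) ?_ ?_ h3
    · rw [hZ, sub_add_cancel, mul_div_cancel₀ _ hd0.ne']
      linarith
    · refine top_of_large (n' := nc) hν hd0 hcν (by linarith) ?_ ?_
      · rw [hZ, sub_add_cancel, mul_div_cancel₀ _ hd0.ne']
        have : 0 ≤ ν ^ 2 / 8 := by positivity
        linarith
      · rw [← hT2]; exact hZl
  refine shape_E hM1 hω hω2 hν hMv ?_ h4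
  rw [← hσd, ← hρd]
  have e4 : (Z - 1) / ρ = (Z + ν / 2) / ρ - ρ / 2 - 1 / ρ := by
    have e4 : (Z - 1) / ρ = (Z + ν / 2) / ρ - (ν / ρ) / 2 - 1 / ρ := by ring
    rw [e4, f8]
  have e5 : (A - 1) / σ = sz M A - σ / 2 - 1 / σ := by
    have e6 : (A - 1) / σ = (A + (M : ℝ) / 2) / σ - ((M : ℝ) / σ) / 2 - 1 / σ := by ring
    rw [e6, f7]
    unfold sz
    rw [← hσd]
  rw [e4, e3, e2, e5]
  linarith

theorem stage {M : ℕ} (hM : 100 ≤ M) : ∃ a : ℕ, 0 < a ∧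
    TrS M (a ^ 2 * (M + 4)) (7 / √(M : ℝ)) ∧ TrE M (a ^ 2 * (M + 4)) (7 / √(M : ℝ)) := by
  obtain ⟨X⟩ := exists_dat hM
  have h := X.hnfa
  refine ⟨X.a, X.ha, ?_, ?_⟩
  · rw [← h]; exact X.trS (by omega)
  · rw [← h]; exact X.trE (by omega)

end Pool.Agent.TH603.Cut
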